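import Pool.Agent.H544Z.J8.Bnd
import Pool.Agent.H986R2.K4.UB

set_option autoImplicit false

/-!
# The Jensen polynomial of large degree approximates the derivative of `XX` near height `t`
-/

namespace Pool.Agent.H544Z.J8

open Complex Filter Topology MeasureTheory Set Polynomial
open Pool.Agent.H24R2.JP (XX HH Om FF Par jensen Hyperbolic)

lemma aeval_jen (d n : ℕ) (z : ℂ) : aeval z (jensen d n) =
    ∑ j ∈ Finset.range (d + 1), (d.choose j : ℂ) * iteratedDeriv (n + j) FF 0 * z ^ j := by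
  unfold jensen
  rw [map_sum]
  refine Finset.sum_congr rfl fun j _ => ?_
  rw [Pool.Agent.H24R2.JP.b1.2.2.2 (n + j)]
  simp

/-- The Jensen polynomial in the local coordinate. -/
noncomputable def JT (t : ℝ) (n d : ℕ) (u : ℂ) : ℂ :=
  (2 * I * t) ^ n * aeval ((-(t : ℂ) ^ 2 + 2 * I * t * u) / d) (jensen d n)

lemma grow (A B : ℝ) (hA : 0 < A) : ∃ L0 : ℝ, 1 ≤ L0 ∧ ∀ L : ℝ, L0 ≤ L →
    B * L ≤ Real.exp (A * L) := by
  refine ⟨max 1 (2 * B / A ^ 2), le_max_left _ _, fun L hL => ?_⟩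
  have h1 : 1 ≤ L := le_trans (le_max_left _ _) hL
  have h2 : 2 * B / A ^ 2 ≤ L := le_trans (le_max_right _ _) hL
  have hAL : 0 ≤ A * L := by positivity
  have h3 := Real.quadratic_le_exp_of_nonneg hAL
  rw [div_le_iff₀ (by positivity)] at h2
  have h4 : B * L ≤ (A * L) ^ 2 / 2 := by nlinarith
  linarith

lemma norm15 {u : ℂ} (h1 : |u.re| ≤ 10) (h2 : |u.im| ≤ 10) : ‖u‖ ≤ 15 := by
  rw [Complex.norm_eq_sqrt_sq_add_sq]
  apply Real.sqrt_le_iff.mpr
  refine ⟨by norm_num, ?_⟩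
  have := abs_le.mp h1
  have := abs_le.mp h2
  nlinarith [sq_abs u.re, sq_abs u.im, abs_nonneg u.re, abs_nonneg u.im]

lemma rot (t : ℝ) (u : ℂ) (θ : ℝ) (ht : 30 ≤ t) (hu : ‖u‖ ≤ 15) : ∃ h : ℂ, ‖h‖ ≤ t * |θ| ∧
    (-(t : ℂ) ^ 2 + 2 * I * t * u) * cexp (θ * I) = -(t : ℂ) ^ 2 + 2 * I * t * (u + h) := by
  have ht0 : 0 < t := by linarith
  have htc : (t : ℂ) ≠ 0 := by exact_mod_cast ht0.ne'
  refine ⟨(-(t : ℂ) ^ 2 + 2 * I * t * u) * (cexp (θ * I) - 1) / (2 * I * t), ?_, ?_⟩
  · have h1 : ‖cexp (θ * I) - 1‖ ≤ |θ| := by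
      have := Real.norm_exp_I_mul_ofReal_sub_one_le (x := θ)
      rwa [mul_comm, Real.norm_eq_abs] at this
    have h2 : ‖2 * I * (t : ℂ)‖ = 2 * t := by
      rw [norm_mul, norm_mul, Complex.norm_I, Complex.norm_two, Complex.norm_real, Real.norm_eq_abs,
        abs_of_pos ht0, mul_one]
    have h3 : ‖-(t : ℂ) ^ 2 + 2 * I * t * u‖ ≤ 2 * t ^ 2 := by
      refine (norm_add_le _ _).trans ?_
      rw [norm_neg, norm_pow, norm_mul, h2, Complex.norm_real, Real.norm_eq_abs, abs_of_pos ht0]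
      have : t * ‖u‖ ≤ t * 15 := by gcongr
      nlinarith
    rw [norm_div, norm_mul, h2, div_le_iff₀ (by positivity)]
    calc _ ≤ 2 * t ^ 2 * |θ| := mul_le_mul h3 h1 (norm_nonneg _) (by positivity)
      _ = _ := by ring
  · have hI : I ≠ 0 := Complex.I_ne_zero
    field_simp
    ring

theorem approx (y b r0 : ℝ) (hy1 : y ≤ 1 / 2) (hZ : Pool.Agent.H986R2.K4.ZB y) (hb : 0 < b)
    (hb1 : b ≤ 1 / 8) (hr0 : 0 < r0) (hr1 : r0 ≤ y) (hr : y - r0 ≤ b / 2) :
    ∃ T0 : ℝ, 2 ≤ T0 ∧ ∀ (t : ℝ) (n d : ℕ), T0 ≤ t → r0 * Om t ≤ n → (n : ℝ) ≤ y * Om t →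
      t ^ 2 * Real.exp (8 * b * Real.log t) / 2 ≤ d → (d : ℝ) ≤ t ^ 2 * Real.exp (8 * b * Real.log t) →
      ∀ u : ℂ, 0 ≤ u.re → u.re ≤ 10 → |u.im| ≤ 10 →
        ‖JT t n d u - iteratedDeriv n XX (I * t + u)‖ ≤
          Real.exp (-(b * Real.log t)) * (Om t ^ n * ‖HH (I * t + u)‖) := by
  obtain ⟨C, T1, hC, hT1, hN⟩ := nearD y (by linarith) hy1 hZ (b / 6) (by positivity) (by linarith)
  obtain ⟨K, hK, hF⟩ := GTder
  obtain ⟨KU, TU, hKU, hTU, hUB⟩ := Pool.Agent.H986R2.K4.ub r0 y hr0 hr1 (by linarith)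
  obtain ⟨KH, hKH, hHH⟩ := Pool.Agent.H986R2.K4.hh
  obtain ⟨T2, hT2, hHR⟩ := hHH 15 (by norm_num)
  obtain ⟨L1, hL1, g1⟩ := grow (b / 2) (4 * Real.exp 1 * C) (by positivity)
  obtain ⟨L2, hL2, g2⟩ := grow (2 * b) (20 * (16 * K + KU + 15 * KH + 4)) (by positivity)
  obtain ⟨L3, hL3, g3⟩ := grow (3 * b) (13 / b) (by positivity)
  refine ⟨max (max T1 TU) (max (max T2 400) (Real.exp (16 + L1 + L2 + L3))),
    hT1.trans ((le_max_left _ _).trans (le_max_left _ _)), ?_⟩
  intro t n d ht hn1 hn2 hd1 hd2 u hu0 hu1 hu2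
  have htT1 : T1 ≤ t := ((le_max_left _ _).trans (le_max_left _ _)).trans ht
  have htTU : TU ≤ t := ((le_max_right _ _).trans (le_max_left _ _)).trans ht
  have htT2 : T2 ≤ t := (((le_max_left _ _).trans (le_max_left _ _)).trans (le_max_right _ _)).trans ht
  have ht4 : 400 ≤ t := (((le_max_right _ _).trans (le_max_left _ _)).trans (le_max_right _ _)).trans ht
  have htE : Real.exp (16 + L1 + L2 + L3) ≤ t :=
    ((le_max_right _ _).trans (le_max_right _ _)).trans ht
  have ht0 : 0 < t := by linarith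
  have hLbig : 16 + L1 + L2 + L3 ≤ Real.log t := (Real.le_log_iff_exp_le ht0).2 htE
  have hOmL : Om t = Real.log t / 2 := rfl
  have htL : t = Real.exp (Real.log t) := (Real.exp_log ht0).symm
  obtain ⟨L, hL⟩ : ∃ L : ℝ, L = Real.log t := ⟨_, rfl⟩
  rw [← hL] at hLbig hOmL htL hd1 hd2 ⊢
  have hL16 : 16 ≤ L := by linarith
  have hbL : b * L ≤ 1 / 8 * L := mul_le_mul_of_nonneg_right hb1 (by linarith)
  have hbL0 : 0 ≤ b * L := by positivity
  have hOm : 0 < Om t := by rw [hOmL]; linarith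
  have hn1' : 1 ≤ n := by
    have : (0 : ℝ) < n := lt_of_lt_of_le (by positivity) hn1
    exact_mod_cast this
  have hn3 : (n : ℝ) ≤ Om t / 2 := by
    have : y * Om t ≤ 1 / 2 * Om t := by gcongr
    linarith
  have hur : |u.re| ≤ 10 := by rw [abs_of_nonneg hu0]; exact hu1
  have hu : ‖u‖ ≤ 15 := norm15 hur hu2
  have hE8 : 1 ≤ Real.exp (8 * b * L) := Real.one_le_exp (by positivity)
  have hd0 : (1 : ℝ) ≤ d := by
    have : t ^ 2 * 1 ≤ t ^ 2 * Real.exp (8 * b * L) := by gcongr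
    have h400 : (400 : ℝ) ^ 2 ≤ t ^ 2 := pow_le_pow_left₀ (by norm_num) ht4 2
    linarith
  have hd1' : 1 ≤ d := by exact_mod_cast hd0
  obtain ⟨W, hW⟩ : ∃ W : ℝ, W = Om t ^ n * ‖HH (I * t + u)‖ := ⟨_, rfl⟩
  have hW0 : 0 ≤ W := by rw [hW]; positivity
  rw [← hW]
  obtain ⟨η, hη⟩ : ∃ η : ℝ, η = Real.exp (-(3 * b * L)) := ⟨_, rfl⟩
  have hη0 : 0 < η := by rw [hη]; exact Real.exp_pos _
  have hη1 : η ≤ 1 := by rw [hη]; exact Real.exp_le_one_iff.2 (by simp; positivity)
  have hη2 : 600 / t ≤ η := by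
    rw [div_le_iff₀ ht0, hη]
    have e : Real.exp (-(3 * b * L)) * t = Real.exp (L - 3 * b * L) := by
      conv_lhs => rw [htL]
      rw [← Real.exp_add]; congr 1; ring
    rw [e]
    have h1 : 10 ≤ L - 3 * b * L := by linarith
    have h2 : Real.exp 10 ≤ Real.exp (L - 3 * b * L) := Real.exp_le_exp.2 h1
    have h3 : (600 : ℝ) ≤ Real.exp 10 := by
      have h4 : Real.exp 10 = Real.exp 1 ^ 10 := by rw [← Real.exp_nat_mul]; norm_num
      have h5 : (2 : ℝ) ≤ Real.exp 1 := by have := Real.add_one_le_exp (1 : ℝ); linarith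
      have h6 : (2 : ℝ) ^ 10 ≤ Real.exp 1 ^ 10 := pow_le_pow_left₀ (by norm_num) h5 10
      rw [h4]; linarith
    linarith
  have hη3 : 2 * η < b / 6 := by
    have h1 := g3 L (by linarith)
    have h2 : 13 / b ≤ Real.exp (3 * b * L) := by
      have : 13 / b * 1 ≤ 13 / b * L := by gcongr; linarith
      linarith
    rw [hη, Real.exp_neg]
    rw [div_le_iff₀ hb] at h2
    have h3 := Real.exp_pos (3 * b * L)
    rw [← div_eq_mul_inv, div_lt_div_iff₀ h3 (by norm_num)]
    linarith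
  obtain ⟨f, hf⟩ : ∃ f : ℂ → ℂ, f = fun x => (2 * I * t) ^ n * iteratedDeriv n FF x := ⟨_, rfl⟩
  have hfd : Differentiable ℂ f := by
    rw [hf]
    have h : ContDiff ℂ (n + 1 : ℕ) FF := FF_diff.contDiff
    exact (h.differentiable_iteratedDeriv n (by exact_mod_cast Nat.lt_succ_self n)).const_mul _
  have hJ : JT t n d u = ∑ j ∈ Finset.range (d + 1), (d.choose j : ℂ) * iteratedDeriv j f 0 *
      ((-(t : ℂ) ^ 2 + 2 * I * t * u) / d) ^ j := by
    unfold JT
    rw [aeval_jen, Finset.mul_sum]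
    refine Finset.sum_congr rfl fun j _ => ?_
    rw [hf, iteratedDeriv_const_mul_field, IntAux.iter_iter]
    ring
  have hfG : ∀ w : ℂ, f (-(t : ℂ) ^ 2 + 2 * I * t * w) = iteratedDeriv n (GT t) w := by
    intro w
    rw [hf, GT_iter]
  have hsq : Real.sqrt d ≤ t * Real.exp (4 * b * L) := by
    apply Real.sqrt_le_iff.2
    refine ⟨by positivity, hd2.trans (le_of_eq ?_)⟩
    rw [mul_pow, ← Real.exp_nat_mul]
    congr 2
    push_cast
    ring
  obtain ⟨-, -, -, g4, -⟩ := hHR t u htT2 hu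
  have hH : Om t ^ n * ‖HH (I * t)‖ ≤ Real.exp (KH * 15) * W := by
    have h1 : Real.exp (-(KH * 15)) * ‖HH (I * t)‖ ≤ ‖HH (I * t + u)‖ := by
      refine le_trans ?_ g4
      apply mul_le_mul_of_nonneg_right _ (norm_nonneg _)
      apply Real.exp_le_exp.mpr
      have : 0 ≤ Om t * u.re := by positivity
      linarith
    have h2 : ‖HH (I * t)‖ ≤ Real.exp (KH * 15) * ‖HH (I * t + u)‖ := by
      have := mul_le_mul_of_nonneg_left h1 (Real.exp_pos (KH * 15)).le
      rwa [← mul_assoc, ← Real.exp_add, add_neg_cancel, Real.exp_zero, one_mul] at this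
    rw [hW]
    calc _ ≤ Om t ^ n * (Real.exp (KH * 15) * ‖HH (I * t + u)‖) := by gcongr
      _ = _ := by ring
  have key := IntAux.jint f hfd d hd1' (-(t : ℂ) ^ 2 + 2 * I * t * u) (iteratedDeriv n XX (I * t + u))
    (η / t) (2 * η * C * L * Real.exp (b / 2 * L) * W) (Real.exp (-(3 * L)) * W) (by positivity)
    (by rw [div_le_one ht0]; linarith) (by positivity) (by positivity) ?_ ?_
  · rw [hJ]
    refine key.trans ?_
    have h1 : Real.exp 1 * Real.sqrt d * (η / t * (2 * η * C * L * Real.exp (b / 2 * L) * W)) ≤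
        Real.exp (-(b * L)) / 2 * W := by
      have h2 := g1 L (by linarith)
      calc Real.exp 1 * Real.sqrt d * (η / t * (2 * η * C * L * Real.exp (b / 2 * L) * W))
          ≤ Real.exp 1 * (t * Real.exp (4 * b * L)) *
            (η / t * (2 * η * C * L * Real.exp (b / 2 * L) * W)) := by gcongr
        _ = (4 * Real.exp 1 * C * L) * (Real.exp (4 * b * L) * η * η * Real.exp (b / 2 * L)) / 2 * W := by
            field_simp
            ring
        _ ≤ Real.exp (b / 2 * L) * (Real.exp (4 * b * L) * η * η * Real.exp (b / 2 * L)) / 2 * W := by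
            gcongr
        _ = _ := by
            rw [hη, ← Real.exp_add, ← Real.exp_add, ← Real.exp_add, ← Real.exp_add]
            congr 3
            ring
    have h2 : Real.exp 1 * Real.sqrt d * (Real.exp (-(3 * L)) * W) ≤ Real.exp (-(b * L)) / 2 * W := by
      have h3 : Real.exp (-(b * L) - 1) ≤ Real.exp (-(b * L)) / 2 := by
        rw [Real.exp_sub]
        have h5 : (2 : ℝ) ≤ Real.exp 1 := by have := Real.add_one_le_exp (1 : ℝ); linarith
        gcongr
      calc Real.exp 1 * Real.sqrt d * (Real.exp (-(3 * L)) * W)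
          ≤ Real.exp 1 * (Real.exp L * Real.exp (4 * b * L)) * (Real.exp (-(3 * L)) * W) := by
            rw [← htL]; gcongr
        _ = Real.exp (1 + (L + 4 * b * L) + -(3 * L)) * W := by
            rw [Real.exp_add, Real.exp_add, Real.exp_add]; ring
        _ ≤ Real.exp (-(b * L) - 1) * W := by
            refine mul_le_mul_of_nonneg_right (Real.exp_le_exp.2 ?_) hW0
            linarith
        _ ≤ _ := by gcongr
    rw [mul_add]
    linarith
  · -- near
    intro θ hθ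
    obtain ⟨h, hh1, hh2⟩ := rot t u θ (by linarith) hu
    rw [hh2, hfG]
    have hh3 : ‖h‖ ≤ η := by
      refine hh1.trans ?_
      rw [le_div_iff₀ ht0] at hθ
      linarith
    have h1 := hN t n u h (2 * η) htT1 hn1' hn2 hu0 hu (by linarith) hη3
    rw [← hW, ← hL] at h1
    refine h1.trans ?_
    have h2 : (n : ℝ) ≤ L := by linarith
    have h3 : Real.exp (b / 6 * L + Om t * (y + b / 6) - n) ≤ Real.exp (b / 2 * L) := by
      apply Real.exp_le_exp.2
      have h4 : (y - b / 2) * Om t ≤ r0 * Om t := by gcongr; linarith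
      rw [hOmL] at h4 hn1 ⊢
      linarith
    gcongr
  · -- far
    intro θ hθ1 hθ2
    obtain ⟨h, hh1, hh2⟩ := rot t u θ (by linarith) hu
    rw [hh2, hfG]
    obtain ⟨τ, hτ⟩ : ∃ τ : ℝ, τ = t * |θ| := ⟨_, rfl⟩
    rw [← hτ] at hh1
    have hτ1 : η ≤ τ := by
      rw [div_le_iff₀ ht0] at hθ1
      rw [hτ]; linarith
    have hτ0 : 0 < τ := by linarith
    have hτ2 : τ ≤ 4 * t := by
      have := Real.pi_lt_four
      have h5 : t * |θ| ≤ t * 4 := mul_le_mul_of_nonneg_left (by linarith) ht0.le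
      rw [hτ]; linarith
    have h1 := hF t (16 + τ) n (u + h) ht4 hn1' (by linarith) (by linarith) (by
      have := norm_add_le u h
      linarith)
    have h2 := hUB t n htTU hn1 hn2 u hur hu2
    rw [Real.rpow_def_of_pos ht0, ← hL] at h2
    rw [← hL] at h1
    have hP0 : 0 ≤ Om t ^ n * ‖HH (I * t)‖ := by positivity
    have hKτ : 0 ≤ K * τ * L := by positivity
    have h3 : ‖iteratedDeriv n (GT t) (u + h) - iteratedDeriv n XX (I * t + u)‖ ≤
        Real.exp (L + (16 * K + KU) * L + K * τ * L) * (Real.exp (KH * 15) * W) := by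
      refine (norm_sub_le _ _).trans ?_
      have a1 : Real.exp (K * (16 + τ) * L) ≤ Real.exp ((16 * K + KU) * L + K * τ * L) := by
        apply Real.exp_le_exp.2
        have : 0 ≤ KU * L := by positivity
        linarith
      have a2 : Real.exp (L * KU) ≤ Real.exp ((16 * K + KU) * L + K * τ * L) := by
        apply Real.exp_le_exp.2
        have : 0 ≤ K * L := by positivity
        linarith
      have a3 : 2 ≤ Real.exp L := by have := Real.add_one_le_exp L; linarith
      calc _ ≤ Real.exp ((16 * K + KU) * L + K * τ * L) * (Om t ^ n * ‖HH (I * t)‖) +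
            Real.exp ((16 * K + KU) * L + K * τ * L) * (Om t ^ n * ‖HH (I * t)‖) :=
            add_le_add (h1.trans (mul_le_mul_of_nonneg_right a1 hP0))
              (h2.trans (mul_le_mul_of_nonneg_right a2 hP0))
        _ = 2 * Real.exp ((16 * K + KU) * L + K * τ * L) * (Om t ^ n * ‖HH (I * t)‖) := by ring
        _ ≤ Real.exp L * Real.exp ((16 * K + KU) * L + K * τ * L) * (Real.exp (KH * 15) * W) := by
            gcongr
        _ = _ := by rw [← Real.exp_add, add_assoc]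
    obtain ⟨Q, hQ⟩ : ∃ Q : ℝ, Q = Real.exp (2 * b * L) := ⟨_, rfl⟩
    have hQ0 : 0 < Q := by rw [hQ]; exact Real.exp_pos _
    have hQ1 := g2 L (by linarith)
    rw [← hQ] at hQ1
    have h4 : Q * (τ + 1) / 20 ≤ d * θ ^ 2 / 5 := by
      have a1 : Real.exp (8 * b * L) * η * η = Q := by
        rw [hη, hQ, ← Real.exp_add, ← Real.exp_add]; congr 1; ring
      have a2 : τ ^ 2 = t ^ 2 * θ ^ 2 := by rw [hτ, mul_pow, sq_abs]
      have a3 : Real.exp (8 * b * L) * τ ^ 2 / 2 ≤ d * θ ^ 2 := by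
        rw [a2]
        have := mul_le_mul_of_nonneg_right hd1 (sq_nonneg θ)
        linarith
      have a4 : Q ≤ Real.exp (8 * b * L) * τ ^ 2 := by
        rw [← a1, pow_two, ← mul_assoc]
        gcongr
      have a5 : Q * τ ≤ Real.exp (8 * b * L) * τ ^ 2 := by
        rw [← a1, pow_two, ← mul_assoc]
        have : Real.exp (8 * b * L) * η * η ≤ Real.exp (8 * b * L) * τ * 1 := by gcongr
        rw [mul_one] at this
        gcongr
      linarith
    calc Real.exp (-(d * θ ^ 2 / 5)) * ‖iteratedDeriv n (GT t) (u + h) - iteratedDeriv n XX (I * t + u)‖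
        ≤ Real.exp (-(Q * (τ + 1) / 20)) *
          (Real.exp (L + (16 * K + KU) * L + K * τ * L) * (Real.exp (KH * 15) * W)) := by
          gcongr
      _ = Real.exp (-(Q * (τ + 1) / 20) + (L + (16 * K + KU) * L + K * τ * L) + KH * 15) * W := by
          rw [Real.exp_add _ (KH * 15), Real.exp_add (-(Q * (τ + 1) / 20))]; ring
      _ ≤ _ := by
          refine mul_le_mul_of_nonneg_right (Real.exp_le_exp.2 ?_) hW0
          have a1 : 20 * K * L ≤ Q := by
            refine le_trans ?_ hQ1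
            have : 20 * K ≤ 20 * (16 * K + KU + 15 * KH + 4) := by linarith
            gcongr
          have a2 : 20 * K * L * τ ≤ Q * τ := by gcongr
          have a3 : KH * 15 * 1 ≤ KH * 15 * L := by gcongr; linarith
          linarith

end Pool.Agent.H544Z.J8
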