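import Pool.Agent.H544Z.J8.NoHyp
import Pool.Agent.H986R2.K4.A2
import Pool.Agent.H986R2.K4.V0
import Pool.Agent.H986R2.K4.VdC

set_option autoImplicit false

/-!
# The constant eight
-/

namespace Pool.Agent.H544Z.J8

open Complex Filter Topology MeasureTheory Set
open Pool.Agent.H986R2.K4

lemma slope_half : Slope (1 / 2) := by
  intro δ hδ
  obtain ⟨e0, he0, -, h⟩ := vdcQ δ hδ
  refine ⟨e0, he0, fun e he1 he2 => ?_⟩
  obtain ⟨C, hC, h⟩ := h e he1 he2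
  refine ⟨C, hC, fun t ht => ?_⟩
  have e1 : (1 / 2 : ℂ) + ((1 / 2 - e : ℝ) : ℂ) + t * I = 1 - e + t * I := by
    push_cast; ring
  rw [e1]
  exact h t ht

theorem barrier : (∃ c : ℝ, 8 < c ∧ Hyp c) ↔
    ∃ θ : ℝ, θ < 1 ∧ ∀ s : ℂ, θ < s.re → riemannZeta s ≠ 0 := by
  constructor
  · rintro ⟨c, hc, h⟩
    by_contra hcon
    push Not at hcon
    refine noHyp (1 / 2) c (by norm_num) le_rfl a1 slope_half ?_ (by linarith) h
    intro ε T1 hε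
    obtain ⟨s, h1, h2, h3, h4⟩ := v0 (fun y hy => by
      obtain ⟨s, hs1, hs2⟩ := hcon (1 / 2 + y) (by linarith)
      exact ⟨s, hs1, hs2⟩) ε T1 hε
    refine ⟨s, h1, ?_, h4⟩
    rw [abs_le]
    constructor <;> linarith
  · rintro ⟨θ, hθ, h⟩
    obtain ⟨θ1, hθ1⟩ : ∃ θ1 : ℝ, θ1 = max θ (3 / 4) := ⟨_, rfl⟩
    have h1 : 3 / 4 ≤ θ1 := by rw [hθ1]; exact le_max_right _ _
    have h2 : θ1 < 1 := by rw [hθ1]; exact max_lt hθ (by norm_num)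
    have h3 : θ ≤ θ1 := by rw [hθ1]; exact le_max_left _ _
    have h4 : 0 < θ1 - 1 / 2 := by linarith
    have h5 : 8 < 4 / (θ1 - 1 / 2) := by
      rw [lt_div_iff₀ h4]; linarith
    have hZ : ZB (θ1 - 1 / 2) := a2 sab a1 (θ1 - 1 / 2) h4.le (by linarith)
      (fun s hs => h s (by linarith))
    refine ⟨(8 + 4 / (θ1 - 1 / 2)) / 2, by linarith, fwdJ (θ1 - 1 / 2) _ h4.le (by linarith) hZ ?_⟩
    have h8 : (4 / (θ1 - 1 / 2)) * (θ1 - 1 / 2) = 4 := div_mul_cancel₀ _ h4.ne'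
    nlinarith

theorem barrier' : (∃ σ₀ : ℝ, 1 / 2 < σ₀ ∧ σ₀ < 1 ∧ ∀ s : ℂ, σ₀ ≤ s.re → riemannZeta s ≠ 0) ↔
    ∃ c : ℝ, 8 < c ∧ Hyp c := by
  rw [barrier]
  constructor
  · rintro ⟨σ, -, h2, h3⟩
    exact ⟨σ, h2, fun s hs => h3 s hs.le⟩
  · rintro ⟨θ, h1, h2⟩
    have h3 : max θ (1 / 2) < 1 := max_lt h1 (by norm_num)
    have h4 := le_max_left θ (1 / 2)
    have h5 := le_max_right θ (1 / 2)
    exact ⟨(max θ (1 / 2) + 1) / 2, by linarith, by linarith, fun s hs => h2 s (by linarith)⟩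

end Pool.Agent.H544Z.J8
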