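import Pool.Agent.H24R2.JP.B1
import Pool.Agent.H24R2.JP.Chasse
import Pool.Agent.H24R2.JP.Chain
import Pool.Agent.H24R2.JP.Der
import Pool.Agent.H24R2.JP.Gam
import Pool.Agent.H24R2.JP.Good
import Pool.Agent.H24R2.JP.Grow
import Pool.Agent.H24R2.JP.Had
import Pool.Agent.H24R2.JP.JensenS
import Pool.Agent.H24R2.JP.Limit
import Pool.Agent.H24R2.JP.Low
import Pool.Agent.H24R2.JP.Mom
import Pool.Agent.H24R2.JP.Newton
import Pool.Agent.H24R2.JP.ParCirc
import Pool.Agent.H24R2.JP.Polys
import Pool.Agent.H24R2.JP.Sector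
import Pool.Agent.H24R2.JP.Zeros

set_option autoImplicit false

namespace Pool.Agent.H544Z.J8.BaseJ

open Pool.Agent.H24R2.JP

theorem gamT : SGam := gamS mom
theorem growT : SGrow := grow b1
theorem zerosT : SZeros := zeros b1
theorem goodT : SGood := good had b1 growT zerosT gamT
theorem parT : SPar := par der gl
theorem circT : SCircle := circ der gl jen
theorem jensenT : SJensen := jensenS der gl (sector chasse) limit
theorem newtonT : SNewton := newton der gl
theorem lowT : SLow := low newtonT goodT gamT b1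

end Pool.Agent.H544Z.J8.BaseJ
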