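import Mathlib

set_option autoImplicit false

/-!
# An integral formula for Jensen polynomials, and a transfer lemma
-/

namespace Pool.Agent.H544Z.J8.IntAux

open Complex Filter Topology MeasureTheory Set

lemma stirling (d : ℕ) (hd : 1 ≤ d) :
    (d.factorial : ℝ) * Real.exp d ≤ Real.exp 1 * Real.sqrt d * (d : ℝ) ^ d := by
  obtain ⟨m, rfl⟩ : ∃ m, d = m + 1 := ⟨d - 1, by omega⟩
  have h := Stirling.stirlingSeq'_antitone (Nat.zero_le m)
  simp only [Function.comp_apply, Nat.succ_eq_add_one, zero_add] at h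
  rw [Stirling.stirlingSeq_one, Stirling.stirlingSeq] at h
  have hd0 : (0 : ℝ) < ((m + 1 : ℕ) : ℝ) := by positivity
  have h2 : (0 : ℝ) < Real.sqrt 2 := by positivity
  rw [Real.sqrt_mul (by norm_num), div_pow, ← Real.exp_nat_mul, mul_one,
    div_le_div_iff₀ (by positivity) h2] at h
  have hE : 0 < Real.exp ((m + 1 : ℕ) : ℝ) := Real.exp_pos _
  have h3 : Real.exp 1 * (Real.sqrt 2 * Real.sqrt ((m + 1 : ℕ) : ℝ) *
      (((m + 1 : ℕ) : ℝ) ^ (m + 1) / Real.exp ((m + 1 : ℕ) : ℝ))) =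
      (Real.exp 1 * Real.sqrt ((m + 1 : ℕ) : ℝ) * ((m + 1 : ℕ) : ℝ) ^ (m + 1) /
        Real.exp ((m + 1 : ℕ) : ℝ)) * Real.sqrt 2 := by ring
  rw [h3] at h
  have h4 := le_of_mul_le_mul_right h h2
  rwa [le_div_iff₀ hE] at h4

lemma cos_le {φ : ℝ} (h2 : |φ| ≤ Real.pi) : Real.cos φ - 1 ≤ -(φ ^ 2 / 5) := by
  have h3 := Real.cos_le_one_sub_mul_cos_sq h2
  have hpi : Real.pi ^ 2 ≤ 10 := by
    have := Real.pi_lt_d2
    have := Real.pi_pos
    nlinarith
  have hpi0 : 0 < Real.pi ^ 2 := by have := Real.pi_pos; positivity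
  have h5 : 1 / 5 ≤ 2 / Real.pi ^ 2 := by
    rw [div_le_div_iff₀ (by norm_num) hpi0]; linarith
  have h6 : 1 / 5 * φ ^ 2 ≤ 2 / Real.pi ^ 2 * φ ^ 2 :=
    mul_le_mul_of_nonneg_right h5 (sq_nonneg _)
  linarith

lemma iter_iter (f : ℂ → ℂ) (n j : ℕ) :
    iteratedDeriv j (iteratedDeriv n f) = iteratedDeriv (n + j) f := by
  rw [iteratedDeriv_eq_iterate, iteratedDeriv_eq_iterate, iteratedDeriv_eq_iterate, add_comm,
    Function.iterate_add_apply]

/-- The Jensen polynomial as a derivative. -/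
lemma leib (f : ℂ → ℂ) (hf : Differentiable ℂ f) (d : ℕ) (hd : 1 ≤ d) (x X0 : ℂ) :
    iteratedDeriv d (fun w => (f (x * w) - X0) * cexp (d * w)) 0 =
      (d : ℂ) ^ d * ((∑ j ∈ Finset.range (d + 1),
        (d.choose j : ℂ) * iteratedDeriv j f 0 * (x / d) ^ j) - X0) := by
  have hd0 : (d : ℂ) ≠ 0 := by exact_mod_cast (by omega : d ≠ 0)
  have h1 : ContDiff ℂ d (fun w => f (x * w)) :=
    (hf.comp (differentiable_id.const_mul x)).contDiff
  have h2 : ContDiff ℂ d (fun w : ℂ => cexp (d * w)) := by fun_prop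
  have e : (fun w => (f (x * w) - X0) * cexp (d * w)) =
      fun w => f (x * w) * cexp (d * w) - X0 * cexp (d * w) := by
    funext w; ring
  rw [e, iteratedDeriv_fun_sub (h1.mul h2).contDiffAt (contDiff_const.mul h2).contDiffAt,
    iteratedDeriv_fun_mul h1.contDiffAt h2.contDiffAt, iteratedDeriv_const_mul_field,
    iteratedDeriv_cexp_const_mul, mul_sub, Finset.mul_sum]
  congr 1
  · refine Finset.sum_congr rfl fun j hj => ?_
    have hj' : j ≤ d := Nat.lt_succ_iff.1 (Finset.mem_range.1 hj)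
    have h3 : ContDiff ℂ j f := hf.contDiff
    rw [iteratedDeriv_comp_const_mul h3, iteratedDeriv_cexp_const_mul]
    simp only [mul_zero, Complex.exp_zero, mul_one]
    have h4 : (d : ℂ) ^ d = (d : ℂ) ^ (d - j) * (d : ℂ) ^ j := by
      rw [← pow_add, Nat.sub_add_cancel hj']
    rw [h4, div_pow]
    field_simp
  · simp only [mul_zero, Complex.exp_zero, mul_one]
    ring

/-- The Jensen polynomial at `x / d` is a Gaussian average of `f` on the circle through `x`. -/
lemma jint (f : ℂ → ℂ) (hf : Differentiable ℂ f) (d : ℕ) (hd : 1 ≤ d) (x X0 : ℂ) (θ1 A B : ℝ)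
    (hθ0 : 0 < θ1) (hθ1 : θ1 ≤ 1) (hA : 0 ≤ A) (hB : 0 ≤ B)
    (hnear : ∀ θ : ℝ, |θ| ≤ θ1 → ‖f (x * cexp (θ * I)) - X0‖ ≤ A)
    (hfar : ∀ θ : ℝ, θ1 ≤ |θ| → |θ| ≤ Real.pi →
      Real.exp (-(d * θ ^ 2 / 5)) * ‖f (x * cexp (θ * I)) - X0‖ ≤ B) :
    ‖(∑ j ∈ Finset.range (d + 1), (d.choose j : ℂ) * iteratedDeriv j f 0 * (x / d) ^ j) - X0‖ ≤
      Real.exp 1 * Real.sqrt d * (θ1 * A + B) := by
  have hpi := Real.pi_gt_three
  obtain ⟨Φ, hΦ⟩ : ∃ Φ : ℂ → ℂ, Φ = fun w => (f (x * w) - X0) * cexp (d * w) := ⟨_, rfl⟩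
  have hΦd : Differentiable ℂ Φ := by
    rw [hΦ]
    refine Differentiable.mul ?_ (by fun_prop)
    exact (hf.comp (differentiable_id.const_mul x)).sub_const _
  have hC := DiffContOnCl.circleIntegral_one_div_sub_center_pow_smul (c := 0) one_pos d
    hΦd.diffContOnCl
  obtain ⟨φ, hφ⟩ : ∃ φ : ℝ → ℂ, φ = fun θ : ℝ => deriv (circleMap 0 1) θ •
    ((1 / (circleMap 0 1 θ - 0) ^ (d + 1)) • Φ (circleMap 0 1 θ)) := ⟨_, rfl⟩
  have hI : (∮ z in C(0, 1), (1 / (z - 0) ^ (d + 1)) • Φ z) = ∫ θ in (0 : ℝ)..(2 * Real.pi), φ θ := by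
    rw [hφ]; rfl
  have hcm : ∀ θ : ℝ, circleMap 0 1 θ = cexp (θ * I) := by
    intro θ; simp [circleMap]
  have hper : Function.Periodic φ (2 * Real.pi) := by
    intro θ
    rw [hφ]
    simp only [deriv_circleMap, periodic_circleMap 0 1 θ]
  have hshift : (∫ θ in (0 : ℝ)..(2 * Real.pi), φ θ) = ∫ θ in (-Real.pi)..Real.pi, φ θ := by
    have := hper.intervalIntegral_add_eq 0 (-Real.pi)
    rw [zero_add] at this
    rw [this]
    congr 1
    ring
  have hcont : Continuous φ := by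
    rw [hφ]
    simp only [deriv_circleMap]
    have hc := continuous_circleMap 0 1
    have c1 : Continuous (fun θ : ℝ => 1 / (circleMap 0 1 θ - 0) ^ (d + 1)) := by
      refine continuous_const.div ((hc.sub continuous_const).pow _) ?_
      intro θ
      rw [sub_zero, hcm]
      exact pow_ne_zero _ (Complex.exp_ne_zero _)
    have c2 : Continuous (fun θ : ℝ => Φ (circleMap 0 1 θ)) := hΦd.continuous.comp hc
    have c3 : Continuous (fun θ : ℝ => circleMap 0 1 θ * I) := hc.mul continuous_const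
    simp only [smul_eq_mul]
    exact c3.mul (c1.mul c2)
  have hnorm : ∀ θ : ℝ, ‖φ θ‖ = Real.exp (d * Real.cos θ) * ‖f (x * cexp (θ * I)) - X0‖ := by
    intro θ
    rw [hφ]
    simp only [deriv_circleMap, hcm, sub_zero, smul_eq_mul, norm_mul, norm_div, norm_pow, norm_one,
      Complex.norm_exp_ofReal_mul_I, Complex.norm_I, one_pow, hΦ]
    rw [Complex.norm_exp]
    have : ((d : ℂ) * cexp (θ * I)).re = d * Real.cos θ := by
      rw [← Complex.ofReal_natCast, Complex.re_ofReal_mul, Complex.exp_ofReal_mul_I_re]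
    rw [this]
    ring
  have hE : 0 < Real.exp d := Real.exp_pos _
  have hd0 : (0 : ℝ) < d := by exact_mod_cast hd
  have hb1 : ∀ θ : ℝ, |θ| ≤ θ1 → ‖φ θ‖ ≤ Real.exp d * A := by
    intro θ hθ
    rw [hnorm]
    have h1 : Real.exp (d * Real.cos θ) ≤ Real.exp d := by
      apply Real.exp_le_exp.2
      have := Real.cos_le_one θ
      nlinarith
    exact mul_le_mul h1 (hnear θ hθ) (norm_nonneg _) hE.le
  have hb2 : ∀ θ : ℝ, θ1 ≤ |θ| → |θ| ≤ Real.pi → ‖φ θ‖ ≤ Real.exp d * B := by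
    intro θ h1 h2
    rw [hnorm]
    have h3 : Real.exp (d * Real.cos θ) ≤ Real.exp d * Real.exp (-(d * θ ^ 2 / 5)) := by
      rw [← Real.exp_add]
      apply Real.exp_le_exp.2
      have := cos_le h2
      nlinarith
    calc _ ≤ Real.exp d * Real.exp (-(d * θ ^ 2 / 5)) * ‖f (x * cexp (θ * I)) - X0‖ := by gcongr
      _ = Real.exp d * (Real.exp (-(d * θ ^ 2 / 5)) * ‖f (x * cexp (θ * I)) - X0‖) := by ring
      _ ≤ _ := by gcongr; exact hfar θ h1 h2
  have hsplit : (∫ θ in (-Real.pi)..Real.pi, φ θ) = (∫ θ in (-Real.pi)..(-θ1), φ θ) +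
      (∫ θ in (-θ1)..θ1, φ θ) + ∫ θ in θ1..Real.pi, φ θ := by
    rw [intervalIntegral.integral_add_adjacent_intervals (hcont.intervalIntegrable _ _)
      (hcont.intervalIntegrable _ _), intervalIntegral.integral_add_adjacent_intervals
      (hcont.intervalIntegrable _ _) (hcont.intervalIntegrable _ _)]
  have i1 : ‖∫ θ in (-Real.pi)..(-θ1), φ θ‖ ≤ Real.exp d * B * Real.pi := by
    have := intervalIntegral.norm_integral_le_of_norm_le_const (a := -Real.pi) (b := -θ1)
      (C := Real.exp d * B) (f := φ) (by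
        intro θ hθ
        rw [Set.uIoc_of_le (by linarith)] at hθ
        refine hb2 θ ?_ ?_
        · rw [abs_of_neg (by linarith [hθ.2])]; linarith [hθ.2]
        · rw [abs_of_neg (by linarith [hθ.2])]; linarith [hθ.1])
    refine this.trans ?_
    rw [abs_of_nonneg (by linarith)]
    have : 0 ≤ Real.exp d * B := by positivity
    nlinarith
  have i2 : ‖∫ θ in (-θ1)..θ1, φ θ‖ ≤ Real.exp d * A * (2 * θ1) := by
    have := intervalIntegral.norm_integral_le_of_norm_le_const (a := -θ1) (b := θ1)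
      (C := Real.exp d * A) (f := φ) (by
        intro θ hθ
        rw [Set.uIoc_of_le (by linarith)] at hθ
        refine hb1 θ ?_
        rw [abs_le]; exact ⟨hθ.1.le, hθ.2⟩)
    refine this.trans (le_of_eq ?_)
    rw [abs_of_nonneg (by linarith)]
    ring
  have i3 : ‖∫ θ in θ1..Real.pi, φ θ‖ ≤ Real.exp d * B * Real.pi := by
    have := intervalIntegral.norm_integral_le_of_norm_le_const (a := θ1) (b := Real.pi)
      (C := Real.exp d * B) (f := φ) (by
        intro θ hθ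
        rw [Set.uIoc_of_le (by linarith)] at hθ
        refine hb2 θ ?_ ?_
        · rw [abs_of_pos (by linarith [hθ.1])]; linarith [hθ.1]
        · rw [abs_of_pos (by linarith [hθ.1])]; linarith [hθ.2])
    refine this.trans ?_
    rw [abs_of_nonneg (by linarith)]
    have : 0 ≤ Real.exp d * B := by positivity
    nlinarith
  have htot : ‖∫ θ in (-Real.pi)..Real.pi, φ θ‖ ≤ 2 * Real.pi * (Real.exp d * (θ1 * A + B)) := by
    rw [hsplit]
    refine (norm_add₃_le).trans ?_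
    have : 0 ≤ Real.exp d * A * θ1 := by positivity
    nlinarith
  rw [← hshift, ← hI, hC, hΦ, leib f hf d hd x X0, smul_eq_mul, norm_mul, norm_mul, norm_div,
    norm_mul, norm_mul, Complex.norm_I, norm_pow, Complex.norm_natCast, Complex.norm_natCast,
    Complex.norm_real, Real.norm_eq_abs, abs_of_pos Real.pi_pos, Complex.norm_two, mul_one] at htot
  obtain ⟨N, hN⟩ : ∃ N : ℝ, N = ‖(∑ j ∈ Finset.range (d + 1),
    (d.choose j : ℂ) * iteratedDeriv j f 0 * (x / d) ^ j) - X0‖ := ⟨_, rfl⟩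
  rw [← hN] at htot ⊢
  have hF : (0 : ℝ) < d.factorial := by exact_mod_cast Nat.factorial_pos d
  have hP : (0 : ℝ) < (d : ℝ) ^ d := by positivity
  have h1 : (d : ℝ) ^ d * N ≤ d.factorial * Real.exp d * (θ1 * A + B) := by
    have e : 2 * Real.pi / d.factorial * ((d : ℝ) ^ d * N) =
        2 * Real.pi * ((d : ℝ) ^ d * N / d.factorial) := by ring
    rw [e] at htot
    have h2 := le_of_mul_le_mul_left htot (by positivity)
    rw [div_le_iff₀ hF] at h2
    linarith
  have h2 : d.factorial * Real.exp d * (θ1 * A + B) ≤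
      Real.exp 1 * Real.sqrt d * (d : ℝ) ^ d * (θ1 * A + B) :=
    mul_le_mul_of_nonneg_right (stirling d hd) (by positivity)
  have h3 : (d : ℝ) ^ d * N ≤ (d : ℝ) ^ d * (Real.exp 1 * Real.sqrt d * (θ1 * A + B)) := by
    linarith
  exact le_of_mul_le_mul_left h3 hP

/-- Transfer of non-vanishing and of the logarithmic derivative. -/
lemma transfer (g G : ℂ → ℂ) (u : ℂ) (ρ σ : ℝ) (hρ : 0 < ρ) (hσ : σ ≤ 1 / 2)
    (h : ∀ w ∈ Metric.closedBall u ρ, DifferentiableAt ℂ g w ∧ DifferentiableAt ℂ G w ∧ g w ≠ 0 ∧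
      ‖G w - g w‖ ≤ σ * ‖g w‖) :
    G u ≠ 0 ∧ ‖g u‖ / 2 ≤ ‖G u‖ ∧ ‖logDeriv G u - logDeriv g u‖ ≤ 2 * σ / ρ := by
  obtain ⟨a1, a2, a3, a4⟩ := h u (Metric.mem_closedBall_self hρ.le)
  have hg0 : 0 < ‖g u‖ := norm_pos_iff.2 a3
  have hlow : ‖g u‖ / 2 ≤ ‖G u‖ := by
    have h1 := norm_sub_norm_le (g u) (g u - G u)
    rw [sub_sub_cancel, norm_sub_rev] at h1
    have h2 : σ * ‖g u‖ ≤ 1 / 2 * ‖g u‖ := by gcongr
    linarith
  have hG0 : G u ≠ 0 := by
    rw [← norm_pos_iff]; linarith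
  refine ⟨hG0, hlow, ?_⟩
  have hq : ∀ w ∈ Metric.closedBall u ρ, DifferentiableAt ℂ (fun w => G w / g w - 1) w := by
    intro w hw
    obtain ⟨b1, b2, b3, -⟩ := h w hw
    exact (b2.div b1 b3).sub_const _
  have hd : ‖deriv (fun w => G w / g w - 1) u‖ ≤ σ / ρ := by
    refine Complex.norm_deriv_le_of_forall_mem_sphere_norm_le hρ ?_ ?_
    · constructor
      · intro w hw
        exact (hq w (Metric.ball_subset_closedBall hw)).differentiableWithinAt
      · rw [closure_ball _ hρ.ne']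
        intro w hw
        exact (hq w hw).continuousAt.continuousWithinAt
    · intro w hw
      obtain ⟨-, -, b3, b4⟩ := h w (Metric.sphere_subset_closedBall hw)
      have e : G w / g w - 1 = (G w - g w) / g w := by field_simp
      rw [e, norm_div, div_le_iff₀ (norm_pos_iff.2 b3)]
      exact b4
  have hder : HasDerivAt (fun w => G w / g w - 1)
      ((deriv G u * g u - G u * deriv g u) / g u ^ 2) u :=
    (a2.hasDerivAt.div a1.hasDerivAt a3).sub_const _
  rw [hder.deriv] at hd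
  have e : logDeriv G u - logDeriv g u =
      (deriv G u * g u - G u * deriv g u) / g u ^ 2 * (g u / G u) := by
    rw [logDeriv_apply, logDeriv_apply]
    field_simp
  rw [e, norm_mul]
  have h2 : ‖g u / G u‖ ≤ 2 := by
    rw [norm_div, div_le_iff₀ (norm_pos_iff.2 hG0)]
    linarith
  have hσ0 : 0 ≤ σ / ρ := (norm_nonneg _).trans hd
  calc _ ≤ σ / ρ * 2 := mul_le_mul hd h2 (norm_nonneg _) hσ0
    _ = _ := by ring

end Pool.Agent.H544Z.J8.IntAux
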