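import Pool.Agent.H544Z.J8.Loc
import Pool.Agent.H544Z.J8.Int
import Pool.Agent.H986R2.K4.PL
import Pool.Agent.H986R2.K4.HHb

set_option autoImplicit false

/-!
# Bounds for `XX` and `GT` near height `t`
-/

namespace Pool.Agent.H544Z.J8

open Complex Filter Topology MeasureTheory Set
open Pool.Agent.H24R2.JP (XX HH Om FF Par)
open Pool.Agent.H986R2.K4 (ZB S_HH S_PL)

lemma XX_refl (t : ℝ) (v : ℂ) : ‖XX (I * t + -((starRingEnd ℂ) v))‖ = ‖XX (I * t + v)‖ := by
  have e : I * t + -((starRingEnd ℂ) v) = -((starRingEnd ℂ) (I * t + v)) := by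
    rw [map_add, map_mul, Complex.conj_I, Complex.conj_ofReal]
    ring
  rw [e, Pool.Agent.H24R2.DZ.XBAux.xsymm, RCLike.norm_conj]

/-- the sharp bound near height `t` -/
lemma supX (y : ℝ) (hy0 : 0 ≤ y) (hy1 : y ≤ 1 / 2) (hZ : ZB y) (s : ℝ) (hs : 0 < s) (hs1 : s ≤ 1 / 2) : ∃ C T0 : ℝ, 1 ≤ C ∧ 2 ≤ T0 ∧
    ∀ (t : ℝ) (v : ℂ) (a : ℝ), T0 ≤ t → ‖v‖ ≤ 20 → y + s ≤ a → |v.re| ≤ a →
      ‖XX (I * t + v)‖ ≤ C * Real.exp (s * Real.log t + Om t * a) * ‖HH (I * t)‖ := by
  obtain ⟨K, hK1, hHH⟩ := Pool.Agent.H986R2.K4.hh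
  obtain ⟨T1, hT1, hHR⟩ := hHH 20 (by norm_num)
  obtain ⟨t1, ht1, hz⟩ := hZ s hs
  obtain ⟨C', T2, hC', hT2, hPL⟩ := Pool.Agent.H986R2.K4.pl Pool.Agent.H986R2.K4.hh (y + s) s 1 t1 20
    (by linarith) (by linarith) hs.le (by linarith) one_pos (by linarith) (by norm_num) (by
      intro t ht
      have e1 : ((1 : ℂ) / 2 + ((y + s : ℝ) : ℂ) + t * I).re = 1 / 2 + (y + s) := by
        simp only [Complex.add_re, Complex.ofReal_re, Complex.mul_re, Complex.I_re, Complex.ofReal_im,
          Complex.I_im]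
        norm_num
      have e2 : ((1 : ℂ) / 2 + ((y + s : ℝ) : ℂ) + t * I).im = t := by
        simp only [Complex.add_im, Complex.ofReal_re, Complex.mul_im, Complex.I_re, Complex.ofReal_im,
          Complex.I_im]
        norm_num
      have := (hz (1 / 2 + ((y + s : ℝ) : ℂ) + t * I) (by rw [e1]; linarith)
        (by rw [e2]; exact ht)).2.2.2
      rw [e2] at this
      rw [one_mul]
      exact this)
  have hE : 1 ≤ Real.exp (K * 20) := Real.one_le_exp (by positivity)
  refine ⟨C' + 2 * Real.exp (K * 20), max (max T1 T2) (t1 + 40), by linarith,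
    hT1.trans ((le_max_left _ _).trans (le_max_left _ _)), ?_⟩
  intro t v a ht hv ha hva
  have htT1 : T1 ≤ t := ((le_max_left _ _).trans (le_max_left _ _)).trans ht
  have htT2 : T2 ≤ t := ((le_max_right _ _).trans (le_max_left _ _)).trans ht
  have htt1 : t1 + 40 ≤ t := (le_max_right _ _).trans ht
  have ht0 : 0 < t := by linarith
  have hlog : 0 < Real.log t := Real.log_pos (by linarith)
  have hOm : 0 < Om t := by unfold Om; positivity
  have hpow : t ^ s = Real.exp (s * Real.log t) := by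
    rw [Real.rpow_def_of_pos ht0, mul_comm]
  have hH0 : 0 ≤ ‖HH (I * t)‖ := norm_nonneg _
  have key : ∀ v : ℂ, ‖v‖ ≤ 20 → 0 ≤ v.re → v.re ≤ a → ‖XX (I * t + v)‖ ≤
      (C' + 2 * Real.exp (K * 20)) * Real.exp (s * Real.log t + Om t * a) * ‖HH (I * t)‖ := by
    intro v hv hv0 hva
    have him := (Complex.abs_im_le_norm v).trans hv
    rcases le_total v.re (y + s) with h | h
    · have h3 := hPL t v htT2 (by rw [abs_of_nonneg hv0]; exact h) him
      refine h3.trans ?_
      rw [hpow, Real.exp_add]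
      have h4 : Real.exp ((y + s) * Om t) ≤ Real.exp (Om t * a) := by
        apply Real.exp_le_exp.2
        nlinarith
      calc C' * Real.exp (s * Real.log t) * (Real.exp ((y + s) * Om t) * ‖HH (I * t)‖)
          ≤ (C' + 2 * Real.exp (K * 20)) * Real.exp (s * Real.log t) *
            (Real.exp (Om t * a) * ‖HH (I * t)‖) := by gcongr; linarith
        _ = _ := by ring
    · have him2 := abs_le.1 him
      have e1 : (1 / 2 + (I * t + v) : ℂ).re = 1 / 2 + v.re := by simp
      have e2 : (1 / 2 + (I * t + v) : ℂ).im = t + v.im := by simp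
      have e3 : (I * t + v : ℂ).im = t + v.im := by simp
      have a4 := (hz (1 / 2 + (I * t + v)) (by rw [e1]; linarith) (by rw [e2]; linarith)).2.2.2
      rw [e2] at a4
      have a5 : (t + v.im) ^ s ≤ 2 * t ^ s := by
        have b1 : (t + v.im) ^ s ≤ (2 * t) ^ s := Real.rpow_le_rpow (by linarith) (by linarith) hs.le
        have b2 : (2 : ℝ) ^ s ≤ 2 := by
          have := Real.rpow_le_rpow_of_exponent_le (x := 2) (by norm_num) (by linarith : s ≤ 1)
          rwa [Real.rpow_one] at this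
        rw [Real.mul_rpow (by norm_num) ht0.le] at b1
        have b3 : 0 ≤ t ^ s := Real.rpow_nonneg ht0.le _
        nlinarith
      obtain ⟨-, -, -, -, g5⟩ := hHR t v htT1 hv
      rw [Pool.Agent.H24R2.JP.ZetaTask.part1 _ (by rw [e3]; linarith), norm_mul]
      have h4 : Real.exp (Om t * v.re + K * 20) ≤ Real.exp (Om t * a) * Real.exp (K * 20) := by
        rw [← Real.exp_add]
        apply Real.exp_le_exp.2
        nlinarith
      calc ‖HH (I * t + v)‖ * ‖riemannZeta (1 / 2 + (I * t + v))‖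
          ≤ (Real.exp (Om t * a) * Real.exp (K * 20) * ‖HH (I * t)‖) * (2 * t ^ s) :=
            mul_le_mul (g5.trans (mul_le_mul_of_nonneg_right h4 hH0)) (a4.trans a5) (norm_nonneg _)
              (by positivity)
        _ = (2 * Real.exp (K * 20)) * Real.exp (s * Real.log t + Om t * a) * ‖HH (I * t)‖ := by
            rw [hpow, Real.exp_add]; ring
        _ ≤ _ := by gcongr; linarith
  rw [abs_le] at hva
  rcases le_total 0 v.re with h | h
  · exact key v hv h hva.2
  · have := key (-((starRingEnd ℂ) v)) (by rw [norm_neg, RCLike.norm_conj]; exact hv)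
      (by simpa using h) (by rw [Complex.neg_re, Complex.conj_re]; linarith [hva.1])
    rwa [XX_refl] at this

/-- the derivatives of `GT` and `XX` are close -/
lemma nearD (y : ℝ) (hy0 : 0 ≤ y) (hy1 : y ≤ 1 / 2) (hZ : ZB y) (s : ℝ) (hs : 0 < s) (hs1 : s ≤ 1 / 2) : ∃ C T0 : ℝ, 1 ≤ C ∧ 2 ≤ T0 ∧
    ∀ (t : ℝ) (n : ℕ) (u h : ℂ) (η : ℝ), T0 ≤ t → 1 ≤ n → (n : ℝ) ≤ y * Om t → 0 ≤ u.re → ‖u‖ ≤ 15 →
      ‖h‖ + 600 / t ≤ η → η < s →
      ‖iteratedDeriv n (GT t) (u + h) - iteratedDeriv n XX (I * t + u)‖ ≤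
        η * C * n * Real.exp (s * Real.log t + Om t * (y + s) - n) *
          (Om t ^ n * ‖HH (I * t + u)‖) := by
  obtain ⟨C, T1, hC, hT1, hX⟩ := supX y hy0 hy1 hZ s hs hs1
  obtain ⟨K, hK1, hHH⟩ := Pool.Agent.H986R2.K4.hh
  obtain ⟨T2, hT2, hHR⟩ := hHH 15 (by norm_num)
  have hE : 1 ≤ Real.exp (K * 15) := Real.one_le_exp (by positivity)
  have hE1 : 1 ≤ Real.exp 1 := Real.one_le_exp (by norm_num)
  refine ⟨2 / s * C * Real.exp 1 * Real.exp (K * 15), max (max T1 T2) 40, ?_,
    hT1.trans ((le_max_left _ _).trans (le_max_left _ _)), ?_⟩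
  · have h1 : 1 ≤ 2 / s := by rw [le_div_iff₀ hs]; linarith
    exact one_le_mul_of_one_le_of_one_le (one_le_mul_of_one_le_of_one_le
      (one_le_mul_of_one_le_of_one_le h1 hC) hE1) hE
  intro t n u h η ht hn1 hn2 hu0 hu hη hηs
  have htT1 : T1 ≤ t := ((le_max_left _ _).trans (le_max_left _ _)).trans ht
  have htT2 : T2 ≤ t := ((le_max_right _ _).trans (le_max_left _ _)).trans ht
  have ht40 : 40 ≤ t := (le_max_right _ _).trans ht
  have ht0 : 0 < t := by linarith
  have hlog : 0 < Real.log t := Real.log_pos (by linarith)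
  have hOm : 0 < Om t := by unfold Om; positivity
  have hn0 : (0 : ℝ) < n := by exact_mod_cast hn1
  obtain ⟨r, hr⟩ : ∃ r : ℝ, r = n / Om t := ⟨_, rfl⟩
  have hr0 : 0 < r := by rw [hr]; positivity
  have hr1 : r ≤ y := by rw [hr, div_le_iff₀ hOm]; exact hn2
  have h600 : 0 < 600 / t := by positivity
  have hh1 : ‖h‖ ≤ 1 / 2 := by linarith
  have hη0 : 0 ≤ η := by linarith [norm_nonneg h]
  obtain ⟨M, hM⟩ : ∃ M : ℝ,
    M = C * Real.exp (s * Real.log t + Om t * (u.re + y + s)) * ‖HH (I * t)‖ := ⟨_, rfl⟩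
  have hM0 : 0 ≤ M := by rw [hM]; positivity
  have hd1 : Differentiable ℂ (fun w => GT t (w + h)) :=
    (GT_diff t).comp (differentiable_id.add_const h)
  have hd2 : Differentiable ℂ (fun w => XX (I * t + w)) :=
    XX_diff.comp (differentiable_id.const_add _)
  have hD : iteratedDeriv n (fun w => GT t (w + h) - XX (I * t + w)) u =
      iteratedDeriv n (GT t) (u + h) - iteratedDeriv n XX (I * t + u) := by
    rw [iteratedDeriv_fun_sub hd1.contDiff.contDiffAt hd2.contDiff.contDiffAt,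
      iteratedDeriv_comp_add_const n (GT t) h, iteratedDeriv_comp_const_add n XX (I * t)]
  have hsph : ∀ w ∈ Metric.sphere u r, ‖GT t (w + h) - XX (I * t + w)‖ ≤ 2 * M / s * η := by
    intro w hw
    rw [mem_sphere_iff_norm] at hw
    have hw1 : ‖w‖ ≤ 31 / 2 := by
      have := norm_add_le (w - u) u
      rw [sub_add_cancel] at this
      linarith
    have hw2 : ‖w + h‖ ≤ 16 := (norm_add_le _ _).trans (by linarith)
    obtain ⟨ζ, hζ1, hζ2⟩ := root t (w + h) ht0 (by linarith)
    rw [GT_eq hζ1]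
    have hζ3 : ‖ζ - (I * t + w)‖ ≤ η := by
      have e : ζ - (I * t + w) = (ζ - (I * t + (w + h))) + h := by ring
      rw [e]
      refine (norm_add_le _ _).trans ?_
      have h1 : 2 * ‖w + h‖ ^ 2 / t ≤ 600 / t := by
        apply div_le_div_of_nonneg_right _ ht0.le
        have : ‖w + h‖ ^ 2 ≤ 16 ^ 2 := pow_le_pow_left₀ (norm_nonneg _) hw2 2
        linarith
      linarith
    have hwre : |w.re| ≤ u.re + y := by
      have h1 := (Complex.abs_re_le_norm (w - u)).trans hw.le
      rw [Complex.sub_re, abs_le] at h1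
      rw [abs_le]
      constructor <;> linarith [h1.1, h1.2]
    have hball : ∀ p ∈ Metric.ball (I * t + w) s, ‖XX p‖ ≤ M := by
      intro p hp
      rw [mem_ball_iff_norm] at hp
      have e : p = I * t + (w + (p - (I * t + w))) := by ring
      rw [e, hM]
      refine hX t _ _ htT1 ((norm_add_le _ _).trans (by linarith)) (by linarith) ?_
      rw [Complex.add_re]
      refine (abs_add_le _ _).trans ?_
      have := Complex.abs_re_le_norm (p - (I * t + w))
      linarith
    have hS := Complex.dist_le_div_mul_dist_of_mapsTo_ball (f := XX) (c := I * t + w) (R₁ := s)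
      (R₂ := 2 * M) (z := ζ) XX_diff.differentiableOn (by
        intro p hp
        rw [Metric.mem_closedBall, dist_eq_norm]
        have h1 := hball p hp
        have h2 := hball _ (Metric.mem_ball_self hs)
        have h3 := norm_sub_le (XX p) (XX (I * t + w))
        linarith) (by rw [mem_ball_iff_norm]; linarith)
    rw [dist_eq_norm, dist_eq_norm] at hS
    exact hS.trans (mul_le_mul_of_nonneg_left hζ3 (by positivity))
  have h1 := Complex.norm_iteratedDeriv_le_of_forall_mem_sphere_norm_le n hr0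
    (hd1.sub hd2).diffContOnCl hsph
  have e0 : (fun w => GT t (w + h)) - (fun w => XX (I * t + w)) =
    fun w => GT t (w + h) - XX (I * t + w) := rfl
  rw [e0, hD] at h1
  refine h1.trans ?_
  have hfac : (n.factorial : ℝ) / r ^ n ≤ Real.exp 1 * n * Real.exp (-n) * Om t ^ n := by
    have h2 := IntAux.stirling n hn1
    have h3 : Real.sqrt n ≤ n := by
      rw [Real.sqrt_le_left hn0.le]
      have : (1 : ℝ) ≤ n := by exact_mod_cast hn1
      nlinarith
    have h4 : (n.factorial : ℝ) * Real.exp n ≤ Real.exp 1 * n * (n : ℝ) ^ n :=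
      h2.trans (by gcongr)
    have h5 : (n : ℝ) ^ n = r ^ n * Om t ^ n := by
      rw [← mul_pow, hr, div_mul_cancel₀ _ hOm.ne']
    rw [div_le_iff₀ (by positivity), Real.exp_neg]
    rw [h5, ← le_div_iff₀ (Real.exp_pos _)] at h4
    refine h4.trans (le_of_eq ?_)
    field_simp
  obtain ⟨-, -, -, g4, -⟩ := hHR t u htT2 hu
  have hH : Real.exp (Om t * u.re) * ‖HH (I * t)‖ ≤ Real.exp (K * 15) * ‖HH (I * t + u)‖ := by
    have := mul_le_mul_of_nonneg_left g4 (Real.exp_pos (K * 15)).le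
    rw [← mul_assoc, ← Real.exp_add] at this
    have e : K * 15 + (Om t * u.re - K * 15) = Om t * u.re := by ring
    rwa [e] at this
  have hM2 : M ≤ C * Real.exp (s * Real.log t + Om t * (y + s)) *
      (Real.exp (K * 15) * ‖HH (I * t + u)‖) := by
    have e : M = C * Real.exp (s * Real.log t + Om t * (y + s)) *
        (Real.exp (Om t * u.re) * ‖HH (I * t)‖) := by
      have e1 : s * Real.log t + Om t * (u.re + y + s) =
        s * Real.log t + Om t * (y + s) + Om t * u.re := by ring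
      rw [hM, e1, Real.exp_add]
      ring
    rw [e]
    gcongr
  calc (n.factorial : ℝ) * (2 * M / s * η) / r ^ n = (n.factorial : ℝ) / r ^ n * (2 / s * η * M) := by
        ring
    _ ≤ (Real.exp 1 * n * Real.exp (-n) * Om t ^ n) * (2 / s * η *
        (C * Real.exp (s * Real.log t + Om t * (y + s)) *
          (Real.exp (K * 15) * ‖HH (I * t + u)‖))) := by gcongr
    _ = _ := by
        rw [sub_eq_add_neg, Real.exp_add (s * Real.log t + Om t * (y + s))]
        ring

/-- crude bound, uniform in the radius -/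
lemma XXup : ∃ K : ℝ, 1 ≤ K ∧ ∀ (R t : ℝ) (v : ℂ), 1 ≤ R → 400 ≤ t → 4 * R ≤ t → ‖v‖ ≤ R →
    ‖XX (I * t + v)‖ ≤ Real.exp (K * R * Real.log t) * ‖HH (I * t)‖ := by
  obtain ⟨K1, hK1, hh⟩ := Pool.Agent.H24R2.DZ.XBAux.hhb
  obtain ⟨hX, K2, hK2, hz⟩ := Pool.Agent.H24R2.JP.zetaS
  have hlK : 0 ≤ Real.log (3 * K2) := Real.log_nonneg (by linarith)
  refine ⟨K1 + Real.log (3 * K2) + 1, by linarith, ?_⟩
  intro R t u hR1 ht4 hRt hu
  have ht0 : 0 < t := by linarith
  have hlog : 1 ≤ Real.log t := by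
    rw [Real.le_log_iff_exp_le ht0]
    have := Real.exp_one_lt_d9
    linarith
  have hHn : 0 ≤ ‖HH (I * t)‖ := norm_nonneg _
  have hup : ∀ v : ℂ, ‖v‖ ≤ R → 0 ≤ v.re → ‖XX (I * t + v)‖ ≤
      Real.exp ((K1 + Real.log (3 * K2) + 1) * R * Real.log t) * ‖HH (I * t)‖ := by
    intro v hv hvr
    obtain ⟨h1, h2, -, -⟩ := hh R t v hR1 ht4 hRt hv
    have him := Complex.abs_im_le_norm v
    have him2 := abs_le.1 (him.trans hv)
    rw [hX _ h1, norm_mul]
    have h3 : ‖riemannZeta (1 / 2 + (I * t + v))‖ ≤ 3 * K2 * t := by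
      have h4 := hz (1 / 2 + (I * t + v)) 1 (by simp; linarith) (by simp; linarith) le_rfl
      simp only [Finset.Icc_self, Finset.sum_singleton, Nat.cast_one, Complex.one_cpow,
        Real.one_rpow, mul_one] at h4
      have h5 : ‖(1 / 2 + (I * t + v) : ℂ)‖ ≤ 1 / 2 + (t + R) := by
        refine (norm_add_le _ _).trans ?_
        refine add_le_add (by norm_num) ((norm_add_le _ _).trans ?_)
        refine add_le_add ?_ hv
        rw [norm_mul, Complex.norm_I, one_mul, Complex.norm_real, Real.norm_eq_abs, abs_of_pos ht0]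
      have h6 := norm_sub_norm_le (riemannZeta (1 / 2 + (I * t + v))) 1
      rw [norm_one] at h6
      have h7 : K2 * ‖(1 / 2 + (I * t + v) : ℂ)‖ ≤ K2 * (2 * t) := by
        apply mul_le_mul_of_nonneg_left _ (by linarith)
        linarith
      have h8 : 1 ≤ K2 * t := by nlinarith
      linarith
    have h4 : 3 * K2 * t ≤ Real.exp ((Real.log (3 * K2) + 1) * Real.log t) := by
      have : Real.log (3 * K2 * t) ≤ (Real.log (3 * K2) + 1) * Real.log t := by
        rw [Real.log_mul (by positivity) ht0.ne']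
        nlinarith
      calc 3 * K2 * t = Real.exp (Real.log (3 * K2 * t)) := (Real.exp_log (by positivity)).symm
        _ ≤ _ := Real.exp_le_exp.2 this
    calc ‖HH (I * t + v)‖ * ‖riemannZeta (1 / 2 + (I * t + v))‖
        ≤ (Real.exp (K1 * R * Real.log t) * ‖HH (I * t)‖) *
          Real.exp ((Real.log (3 * K2) + 1) * Real.log t) := by
          gcongr
          exact h3.trans h4
      _ = Real.exp (K1 * R * Real.log t + (Real.log (3 * K2) + 1) * Real.log t) * ‖HH (I * t)‖ := by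
          rw [Real.exp_add]; ring
      _ ≤ _ := by
          refine mul_le_mul_of_nonneg_right (Real.exp_le_exp.2 ?_) hHn
          have h9 : (Real.log (3 * K2) + 1) * Real.log t * 1 ≤
              (Real.log (3 * K2) + 1) * Real.log t * R := by gcongr
          nlinarith
  rcases le_total 0 u.re with h | h
  · exact hup u hu h
  · have := hup (-((starRingEnd ℂ) u)) (by rw [norm_neg, RCLike.norm_conj]; exact hu)
      (by simpa using h)
    rwa [XX_refl] at this

/-- global bound -/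
lemma XXglob : ∃ C : ℝ, 0 < C ∧ ∀ z : ℂ,
    ‖XX z‖ ≤ 8 * Real.exp (|z.re| / 2 * Real.log (2 + |z.re|) + C * (1 + |z.re|)) := by
  obtain ⟨A, -, hA⟩ := Pool.Agent.Helper242.KK.Ph_upper
  obtain ⟨C, hC, hb⟩ := Pool.Agent.Helper242.KK.FT_upper
    Pool.Agent.Helper242.KK.continuous_Ph hA
  refine ⟨C, hC, fun z => ?_⟩
  have h0 : 0 ≤ |z.re| := abs_nonneg _
  by_cases hc : (1 / 2 : ℂ) + z = 0 ∨ (1 / 2 : ℂ) + z = 1
  · have hx : 4 * z ^ 2 - 1 = 0 := by
      rcases hc with hc | hc
      · have : z = -(1 / 2) := by linear_combination hc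
        rw [this]; norm_num
      · have : z = 1 / 2 := by linear_combination hc
        rw [this]; norm_num
    have : XX z = 4 := by unfold XX; rw [hx]; ring
    rw [this]
    have : ‖(4 : ℂ)‖ = 4 := by simp
    rw [this]
    have hl0 : 0 ≤ Real.log (2 + |z.re|) := Real.log_nonneg (by linarith)
    have := Real.one_le_exp (x := |z.re| / 2 * Real.log (2 + |z.re|) + C * (1 + |z.re|))
      (by positivity)
    linarith
  · push Not at hc
    rw [Pool.Agent.H24R2.JP.XX_eq_FT_aux z hc.1 hc.2, norm_mul]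
    have e2 := hb (-I * z)
    have him : |(-I * z).im| = |z.re| := by simp
    rw [him] at e2
    have h8 : ‖(8 : ℂ)‖ = 8 := by simp
    rw [h8]
    linarith

lemma GTup : ∃ K : ℝ, 1 ≤ K ∧ ∀ (t ρ : ℝ) (w : ℂ), 400 ≤ t → 1 ≤ ρ → ρ ≤ 5 * t → ‖w‖ ≤ ρ →
    ‖GT t w‖ ≤ Real.exp (K * ρ * Real.log t) * ‖HH (I * t)‖ := by
  obtain ⟨K1, hK1, h1⟩ := XXup
  obtain ⟨C, hC, h2⟩ := XXglob
  obtain ⟨K3, hK3, h3⟩ := Pool.Agent.H986R2.K4.PLAux.vert
  obtain ⟨c0, hc0⟩ : ∃ c0 : ℝ, c0 = ‖HH (I * (400 : ℝ))‖ := ⟨_, rfl⟩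
  have hc0p : 0 < c0 := by
    rw [hc0, norm_pos_iff]
    exact Pool.Agent.H24R2.JP.StirAux.HH_ne (by simp)
  obtain ⟨K4, hK4⟩ : ∃ K4 : ℝ, K4 = 7 + 5 * C + K3 + |Real.log c0| := ⟨_, rfl⟩
  have hK40 : 0 ≤ K4 := by rw [hK4]; positivity
  refine ⟨2 * K1 + 8 * K4, by linarith, ?_⟩
  intro t ρ w ht hρ1 hρ2 hw
  have ht0 : 0 < t := by linarith
  have hlog : 1 ≤ Real.log t := by
    rw [Real.le_log_iff_exp_le ht0]
    have := Real.exp_one_lt_d9
    linarith
  have hHn : 0 ≤ ‖HH (I * t)‖ := norm_nonneg _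
  have hρL : 0 ≤ ρ * Real.log t := by positivity
  rcases le_total ρ (t / 8) with hc | hc
  · obtain ⟨ζ, hζ1, hζ2⟩ := root t w ht0 (by linarith)
    rw [GT_eq hζ1]
    have e : ζ = I * t + ((ζ - (I * t + w)) + w) := by ring
    have hv : ‖(ζ - (I * t + w)) + w‖ ≤ 2 * ρ := by
      refine (norm_add_le _ _).trans ?_
      have h4 : 2 * ‖w‖ ^ 2 / t ≤ ρ := by
        rw [div_le_iff₀ ht0]
        have := norm_nonneg w
        nlinarith
      linarith
    rw [e]
    refine (h1 (2 * ρ) t _ (by linarith) ht (by linarith) hv).trans ?_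
    refine mul_le_mul_of_nonneg_right (Real.exp_le_exp.2 ?_) hHn
    nlinarith
  · obtain ⟨z, hz⟩ := IsAlgClosed.exists_pow_nat_eq (-(t : ℂ) ^ 2 + 2 * I * t * w) (by norm_num : 0 < 2)
    rw [GT_eq hz]
    have hzn : ‖z‖ ≤ 4 * t := by
      have h4 : ‖z‖ ^ 2 ≤ (4 * t) ^ 2 := by
        rw [← norm_pow, hz]
        refine (norm_add_le _ _).trans ?_
        rw [norm_neg, norm_pow, norm_mul, norm_mul, norm_mul, Complex.norm_I, Complex.norm_two,
          Complex.norm_real, Real.norm_eq_abs, abs_of_pos ht0]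
        have : t * ‖w‖ ≤ t * (5 * t) := by gcongr; linarith
        nlinarith
      exact (pow_le_pow_iff_left₀ (norm_nonneg _) (by positivity) (by norm_num)).1 h4
    have hre : |z.re| ≤ 4 * t := (Complex.abs_re_le_norm z).trans hzn
    have h0 : 0 ≤ |z.re| := abs_nonneg _
    have hl1 : Real.log (2 + |z.re|) ≤ 2 * Real.log t := by
      have : Real.log (t ^ 2) = 2 * Real.log t := by rw [Real.log_pow]; norm_num
      rw [← this]
      exact Real.log_le_log (by linarith) (by nlinarith)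
    have hl0 : 0 ≤ Real.log (2 + |z.re|) := Real.log_nonneg (by linarith)
    have htL : t ≤ t * Real.log t := by nlinarith
    have e1 : |z.re| / 2 * Real.log (2 + |z.re|) ≤ 4 * (t * Real.log t) := by
      calc |z.re| / 2 * Real.log (2 + |z.re|) ≤ (4 * t) / 2 * (2 * Real.log t) := by gcongr
        _ = _ := by ring
    have e2 : C * (1 + |z.re|) ≤ 5 * C * (t * Real.log t) := by
      have : 1 + |z.re| ≤ 5 * (t * Real.log t) := by linarith
      nlinarith
    have e3 : (8 : ℝ) ≤ Real.exp (3 * (t * Real.log t)) := by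
      have := Real.add_one_le_exp (3 * (t * Real.log t))
      linarith
    have e4 : 1 ≤ Real.exp ((K3 + |Real.log c0|) * (t * Real.log t)) * ‖HH (I * t)‖ := by
      have h5 := h3 0 400 t (by simp) le_rfl ht
      rw [Complex.ofReal_zero, zero_add, zero_add, ← hc0] at h5
      have h6 : Real.exp (K3 * |400 - t|) ≤ Real.exp (K3 * (t * Real.log t)) := by
        apply Real.exp_le_exp.2
        have : |400 - t| ≤ t * Real.log t := by
          rw [abs_le]; constructor <;> linarith
        gcongr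
      have h7 : 1 ≤ Real.exp (|Real.log c0| * (t * Real.log t)) * c0 := by
        have h8 : Real.exp (-Real.log c0) ≤ Real.exp (|Real.log c0| * (t * Real.log t)) := by
          apply Real.exp_le_exp.2
          have h9 := neg_le_abs (Real.log c0)
          have h10 : |Real.log c0| * 1 ≤ |Real.log c0| * (t * Real.log t) := by
            gcongr; linarith
          linarith
        rw [Real.exp_neg, Real.exp_log hc0p] at h8
        have := mul_le_mul_of_nonneg_right h8 hc0p.le
        rwa [inv_mul_cancel₀ hc0p.ne'] at this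
      calc (1 : ℝ) ≤ Real.exp (|Real.log c0| * (t * Real.log t)) * c0 := h7
        _ ≤ Real.exp (|Real.log c0| * (t * Real.log t)) *
            (Real.exp (K3 * (t * Real.log t)) * ‖HH (I * t)‖) := by
            gcongr
            exact h5.trans (mul_le_mul_of_nonneg_right h6 hHn)
        _ = _ := by rw [add_mul, Real.exp_add]; ring
    calc ‖XX z‖ ≤ 8 * Real.exp (|z.re| / 2 * Real.log (2 + |z.re|) + C * (1 + |z.re|)) := h2 z
      _ ≤ Real.exp (3 * (t * Real.log t)) *
          Real.exp (4 * (t * Real.log t) + 5 * C * (t * Real.log t)) := by gcongr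
      _ ≤ Real.exp (3 * (t * Real.log t)) *
          Real.exp (4 * (t * Real.log t) + 5 * C * (t * Real.log t)) *
          (Real.exp ((K3 + |Real.log c0|) * (t * Real.log t)) * ‖HH (I * t)‖) :=
          le_mul_of_one_le_right (by positivity) e4
      _ = Real.exp (K4 * (t * Real.log t)) * ‖HH (I * t)‖ := by
          rw [← mul_assoc, ← Real.exp_add, ← Real.exp_add, hK4]
          congr 2
          ring
      _ ≤ _ := by
          refine mul_le_mul_of_nonneg_right (Real.exp_le_exp.2 ?_) hHn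
          have h5 : K4 * (t * Real.log t) ≤ K4 * (8 * ρ * Real.log t) := by
            gcongr; linarith
          have h6 : 0 ≤ K1 * (ρ * Real.log t) := by positivity
          nlinarith

lemma GTder : ∃ K : ℝ, 1 ≤ K ∧ ∀ (t ρ : ℝ) (n : ℕ) (w : ℂ), 400 ≤ t → 1 ≤ n → (n : ℝ) ≤ Om t →
    ρ ≤ 5 * t → ‖w‖ + 1 ≤ ρ →
    ‖iteratedDeriv n (GT t) w‖ ≤ Real.exp (K * ρ * Real.log t) * (Om t ^ n * ‖HH (I * t)‖) := by
  obtain ⟨K, hK, h⟩ := GTup
  refine ⟨K, hK, ?_⟩
  intro t ρ n w ht hn1 hn2 hρ hw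
  have hn : (0 : ℝ) < n := by exact_mod_cast hn1
  have hOm : 0 < Om t := by linarith
  obtain ⟨r, hr⟩ : ∃ r : ℝ, r = n / Om t := ⟨_, rfl⟩
  have hrpos : 0 < r := by rw [hr]; positivity
  have hr1 : r ≤ 1 := by rw [hr, div_le_one hOm]; exact hn2
  have hC : ∀ z ∈ Metric.sphere w r, ‖GT t z‖ ≤ Real.exp (K * ρ * Real.log t) * ‖HH (I * t)‖ := by
    intro z hz
    rw [mem_sphere_iff_norm] at hz
    refine h t ρ z ht (by linarith [norm_nonneg w]) hρ ?_
    have := norm_add_le (z - w) w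
    rw [sub_add_cancel] at this
    linarith
  have h1 := Complex.norm_iteratedDeriv_le_of_forall_mem_sphere_norm_le n hrpos
    (GT_diff t).diffContOnCl hC
  refine le_trans h1 ?_
  have h4 : (n.factorial : ℝ) ≤ (n : ℝ) ^ n := by exact_mod_cast n.factorial_le_pow
  rw [hr, div_pow, div_div_eq_mul_div, div_le_iff₀ (by positivity)]
  have hH : 0 ≤ ‖HH (I * t)‖ := norm_nonneg _
  have hp : 0 < Om t ^ n := by positivity
  calc (n.factorial : ℝ) * (Real.exp (K * ρ * Real.log t) * ‖HH (I * t)‖) * Om t ^ n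
      ≤ (n : ℝ) ^ n * (Real.exp (K * ρ * Real.log t) * ‖HH (I * t)‖) * Om t ^ n := by gcongr
    _ = _ := by ring

end Pool.Agent.H544Z.J8
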