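import Pool.Agent.H24R2.JP.Spec

set_option autoImplicit false

/-!
# From `XX` to the xi function
-/

namespace Pool.Agent.H544Z.J8

open Complex Polynomial
open Pool.Agent.H24R2.JP (XX gam jensen Hyperbolic)

lemma bridge (ξ : ℂ → ℂ) (hξ : ∀ s, ξ s = s * (s - 1) / 2 * completedRiemannZeta₀ s + 1 / 2)
    (d n : ℕ) :
    (∀ z : ℂ, aeval z (∑ j ∈ Finset.range (d + 1), C ((d.choose j : ℝ) *
      (((n + j).factorial : ℝ) / ((2 * (n + j)).factorial : ℝ) *
        (iteratedDeriv (2 * (n + j)) ξ (1 / 2)).re)) * X ^ j : ℝ[X]) = 0 → z.im = 0) ↔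
      Hyperbolic (jensen d n) := by
  have h : ξ = fun s => (1 / 8) * XX (s - 1 / 2) := by
    funext s
    rw [hξ]
    unfold XX
    have e : (1 / 2 : ℂ) + (s - 1 / 2) = s := by ring
    rw [e]
    ring
  have h2 : ∀ k : ℕ, (k.factorial : ℝ) / ((2 * k).factorial : ℝ) *
      (iteratedDeriv (2 * k) ξ (1 / 2)).re = 1 / 8 * gam k := by
    intro k
    rw [h, iteratedDeriv_const_mul_field, iteratedDeriv_comp_sub_const]
    simp only [sub_self]
    unfold gam
    have e : (1 / 8 : ℂ) = ((1 / 8 : ℝ) : ℂ) := by push_cast; ring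
    rw [e, Complex.re_ofReal_mul]
    ring
  have h3 : (∑ j ∈ Finset.range (d + 1), C ((d.choose j : ℝ) *
      (((n + j).factorial : ℝ) / ((2 * (n + j)).factorial : ℝ) *
        (iteratedDeriv (2 * (n + j)) ξ (1 / 2)).re)) * X ^ j : ℝ[X]) = C (1 / 8) * jensen d n := by
    unfold jensen
    rw [Finset.mul_sum]
    refine Finset.sum_congr rfl fun j _ => ?_
    rw [h2, ← mul_assoc (C (1 / 8)), ← C_mul]
    congr 2
    ring
  rw [h3]
  unfold Hyperbolic
  refine forall_congr' fun z => ?_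
  rw [map_mul, aeval_C, mul_eq_zero]
  have h4 : (algebraMap ℝ ℂ) (1 / 8) ≠ 0 := by simp
  constructor
  · intro h5 h6
    exact h5 (Or.inr h6)
  · intro h5 h6
    exact h5 (h6.resolve_left h4)

end Pool.Agent.H544Z.J8
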