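import Pool.Agent.H544Z.J8.Loc
import Pool.Agent.H544Z.J8.BaseJ
import Pool.Agent.H986R2.K4.NL
import Pool.Agent.H986R2.K4.RT
import Pool.Agent.H986R2.K4.Lap
import Pool.Agent.H986R2.K4.PL
import Pool.Agent.H986R2.K4.HHb
import Pool.Agent.H986R2.K4.A1

set_option autoImplicit false

/-!
# The forward theorem for Jensen polynomials
-/

namespace Pool.Agent.H544Z.J8

open Complex Filter Topology MeasureTheory Set Polynomial
open Pool.Agent.H24R2.JP (XX HH Om FF Par jensen Hyperbolic)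
open Pool.Agent.H986R2.K4 (QQ ZB S_NORM S_AW S_NL)

/-- No non-real zeros of `FF^(n)` with real part `-t^2` when `n ∈ [r0 Om t, 2 r0 Om t]`. -/
def NoBadF (r0 : ℝ) : Prop := ∃ T0 : ℝ, 2 ≤ T0 ∧ ∀ (t : ℝ) (n : ℕ), T0 ≤ t →
  r0 * Om t ≤ n → (n : ℝ) ≤ 2 * r0 * Om t → ∀ x : ℂ, x.re = -t ^ 2 → |x.im| ≤ 2 * t → x.im ≠ 0 →
  iteratedDeriv n FF x ≠ 0

theorem winF (h1 : S_NORM) (h2 : S_AW) (h3 : S_NL) (y r0 : ℝ) (hy0 : 0 ≤ y) (hy1 : y ≤ 1 / 2)
    (hZ : ZB y) (hyr : y < r0) (hr1 : r0 ≤ 1) : NoBadF r0 := by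
  have hr0 : 0 < r0 := lt_of_le_of_lt hy0 hyr
  obtain ⟨κ, hκ0, hκ1, hN⟩ := normF h1 y r0 hy0 hy1 hZ hyr hr1
  obtain ⟨R, hRdef⟩ : ∃ R : ℝ, R = 1 / r0 + 3 := ⟨_, rfl⟩
  have hR : 3 ≤ R := by
    have : 0 < 1 / r0 := by positivity
    linarith
  obtain ⟨κ1, η1, n1, hκ10, hκ1κ, hη1, H3⟩ := h3 κ R hκ0 hκ1 hR
  obtain ⟨η2, n2, hη2, H2⟩ := h2 κ R κ1 hκ0 hκ1 hR hκ10 hκ1κ
  obtain ⟨T0, hT0, H1⟩ := hN R (min η1 η2) hR (lt_min hη1 hη2)
  refine ⟨max T0 (Real.exp (2 * (max n1 n2 : ℕ) / r0)), hT0.trans (le_max_left _ _), ?_⟩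
  intro t n ht hn1 hn2 s hs hsi hsi0 hbad
  have htT0 : T0 ≤ t := (le_max_left _ _).trans ht
  have htE : Real.exp (2 * (max n1 n2 : ℕ) / r0) ≤ t := (le_max_right _ _).trans ht
  have ht2 : 2 ≤ t := hT0.trans htT0
  have ht0 : 0 < t := by linarith
  have hlog : 2 * ((max n1 n2 : ℕ) : ℝ) / r0 ≤ Real.log t :=
    (Real.le_log_iff_exp_le (by linarith)).2 htE
  have hlog0 : 0 < Real.log t := Real.log_pos (by linarith)
  have hOm : 0 < Om t := by unfold Om; positivity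
  have hnn : ((max n1 n2 : ℕ) : ℝ) ≤ n := by
    refine le_trans ?_ hn1
    rw [div_le_iff₀ hr0] at hlog
    unfold Om
    linarith
  have hnn' : max n1 n2 ≤ n := by exact_mod_cast hnn
  have hn0 : (0 : ℝ) < n := lt_of_lt_of_le (by positivity) hn1
  have hQ := H1 t n htT0 hn1 hn2
  obtain ⟨r, hr⟩ : ∃ r : ℝ, r = n / Om t := ⟨_, rfl⟩
  rw [← hr] at hQ
  have hrpos : 0 < r := by rw [hr]; positivity
  have hrr0 : r0 ≤ r := by rw [hr, le_div_iff₀ hOm]; exact hn1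
  have hrc : (r : ℂ) ≠ 0 := by exact_mod_cast hrpos.ne'
  have htc : (t : ℂ) ≠ 0 := by exact_mod_cast ht0.ne'
  obtain ⟨x, hx⟩ : ∃ x : ℝ, x = s.im / (2 * t * r) := ⟨_, rfl⟩
  have hsx : -(t : ℂ) ^ 2 + 2 * I * t * (0 + (r : ℂ) * (x : ℂ)) = s := by
    have e1 : 2 * I * t * (0 + (r : ℂ) * (x : ℂ)) = (s.im : ℂ) * I := by
      rw [hx]; push_cast; field_simp; ring
    have e2 : -(t : ℂ) ^ 2 = (s.re : ℂ) := by rw [hs]; push_cast; ring
    rw [e1, e2]
    exact Complex.re_add_im s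
  have hfun : (fun z : ℂ => GT t ((r : ℂ) * z)) = fun z : ℂ => GT t (0 + (r : ℂ) * z) := by
    funext z; rw [zero_add]
  have hzero : iteratedDeriv n (fun z : ℂ => GT t (((r : ℝ) : ℂ) * z)) (x : ℂ) = 0 := by
    rw [hfun, scale (GT_diff t) 0 r n, GT_iter, hsx, hbad, mul_zero,
      mul_zero]
  by_cases hc : κ1 ≤ |x|
  · refine H2 n _ ((le_max_right _ _).trans hnn')
      (mono (min_le_right _ _) hQ) x hc ?_ hzero
    have e1 : |x| = |s.im| / (2 * t * r) := by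
      rw [hx, abs_div, abs_of_pos (by positivity : 0 < 2 * t * r)]
    rw [e1, div_le_iff₀ (by positivity)]
    have e2 : (1 : ℝ) ≤ 1 / r0 * r := by
      rw [div_mul_eq_mul_div, one_mul, le_div_iff₀ hr0]
      linarith
    have e3 : (R - 2) * (2 * t * r) = 2 * t * (1 / r0 * r) + 2 * t * r := by rw [hRdef]; ring
    rw [e3]
    have e4 : 2 * t * 1 ≤ 2 * t * (1 / r0 * r) := by gcongr
    have e5 : 0 < 2 * t * r := by positivity
    linarith
  · push Not at hc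
    obtain ⟨h5, -⟩ := H3 n _ ((le_max_left _ _).trans hnn')
      (mono (min_le_left _ _) hQ) x hc.le hzero
    apply hsi0
    rw [hx] at h5
    exact (div_eq_zero_iff.1 h5).resolve_right (by positivity)

/-- The window in terms of the size of `x`. -/
def WinF (α β : ℝ) : Prop := ∃ n1 : ℕ, ∀ n : ℕ, n1 ≤ n → ∀ x : ℂ, x ∈ Par → x.im ≠ 0 →
  Real.exp (α * n) ≤ ‖x‖ → ‖x‖ ≤ Real.exp (β * n) → iteratedDeriv n FF x ≠ 0

theorem winG (r0 : ℝ) (hr0 : 0 < r0) (hr1 : r0 ≤ 1) (h : NoBadF r0) : WinF (3 / r0) (4 / r0) := by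
  obtain ⟨T0, hT0, h⟩ := h
  refine ⟨max 2 ⌈T0⌉₊, ?_⟩
  intro n hn x hx him hlo hup
  have hn2 : (2 : ℝ) ≤ n := by exact_mod_cast (le_max_left _ _).trans hn
  have hnT : T0 ≤ n := by
    have h1 : ⌈T0⌉₊ ≤ n := (le_max_right _ _).trans hn
    exact Nat.ceil_le.1 h1
  have hP : x.re + x.im ^ 2 ≤ 1 / 4 := hx
  obtain ⟨m, hm⟩ : ∃ m : ℝ, m = n / r0 := ⟨_, rfl⟩
  have hmn : (n : ℝ) ≤ m := by
    rw [hm, le_div_iff₀ hr0]
    nlinarith
  have e3 : 3 / r0 * n = 3 * m := by rw [hm]; ring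
  have e4 : 4 / r0 * n = 4 * m := by rw [hm]; ring
  rw [e3] at hlo
  rw [e4] at hup
  obtain ⟨E, hE⟩ : ∃ E : ℝ, E = Real.exp m := ⟨_, rfl⟩
  have hE1 : m + 1 ≤ E := by rw [hE]; exact Real.add_one_le_exp m
  have hE3 : Real.exp (3 * m) = E ^ 3 := by
    rw [hE, ← Real.exp_nat_mul]; norm_num
  have hE4 : Real.exp (4 * m) = E ^ 4 := by
    rw [hE, ← Real.exp_nat_mul]; norm_num
  rw [hE3] at hlo
  rw [hE4] at hup
  have hE5 : 3 ≤ E := by linarith
  have hnorm : ‖x‖ ≤ |x.re| + |x.im| := Complex.norm_le_abs_re_add_abs_im x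
  have hE27 : (27 : ℝ) ≤ E ^ 3 := by
    have : (3 : ℝ) ^ 3 ≤ E ^ 3 := pow_le_pow_left₀ (by norm_num) hE5 3
    linarith
  have hre : x.re < 0 := by
    by_contra hc
    push Not at hc
    have h1 : x.im ^ 2 ≤ 1 ^ 2 := by linarith
    have h2 : |x.im| ≤ 1 := by
      have := sq_le_sq.1 h1
      simpa using this
    have h3 : |x.re| ≤ 1 / 4 := by
      rw [abs_of_nonneg hc]; nlinarith [sq_nonneg x.im]
    linarith
  obtain ⟨t, ht⟩ : ∃ t : ℝ, t = Real.sqrt (-x.re) := ⟨_, rfl⟩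
  have ht0 : 0 ≤ t := by rw [ht]; exact Real.sqrt_nonneg _
  have ht2 : t ^ 2 = -x.re := by rw [ht]; exact Real.sq_sqrt (by linarith)
  have hi : |x.im| ≤ t + 1 / 2 := by
    have h1 : x.im ^ 2 ≤ (t + 1 / 2) ^ 2 := by nlinarith
    have := sq_le_sq.1 h1
    rwa [abs_of_nonneg (by linarith : 0 ≤ t + 1 / 2)] at this
  have hr : |x.re| = t ^ 2 := by rw [abs_of_neg hre, ht2]
  have htE : E ≤ t := by
    by_contra hc
    push Not at hc
    have h1 : t ^ 2 ≤ E ^ 2 := pow_le_pow_left₀ ht0 hc.le 2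
    have h2 : 3 * E ^ 2 ≤ E ^ 3 := by nlinarith [sq_nonneg E]
    nlinarith
  have htE2 : t ≤ E ^ 2 := by
    have h1 : t ^ 2 ≤ (E ^ 2) ^ 2 := by
      have := Complex.abs_re_le_norm x
      have e : (E ^ 2) ^ 2 = E ^ 4 := by ring
      rw [e]; linarith
    exact (pow_le_pow_iff_left₀ ht0 (by positivity) (by norm_num)).1 h1
  have htp : 0 < t := by linarith
  have hl1 : m ≤ Real.log t := by
    rw [Real.le_log_iff_exp_le htp, ← hE]; exact htE
  have hl2 : Real.log t ≤ 2 * m := by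
    rw [Real.log_le_iff_le_exp htp]
    have : Real.exp (2 * m) = E ^ 2 := by rw [hE, ← Real.exp_nat_mul]; norm_num
    rw [this]; exact htE2
  have hmr : r0 * m = n := by rw [hm]; field_simp
  refine h t n (by linarith) ?_ ?_ x (by linarith) (by linarith) him
  · unfold Om
    have : r0 * (Real.log t / 2) ≤ r0 * m := by gcongr; linarith
    linarith
  · unfold Om
    have : r0 * m ≤ r0 * Real.log t := by gcongr
    linarith

open Pool.Agent.H24R2.JP.ChainAux in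
theorem chainF (α β : ℝ) (hα : 0 < α) (hαβ : α < β) (h3 : WinF α β) :
    ∃ N1 : ℕ, ∀ n : ℕ, N1 ≤ n → ∀ w : ℂ, w.im ≠ 0 → iteratedDeriv n FF w = 0 →
      Real.exp (β * n) < ‖w‖ := by
  have h1 := BaseJ.parT
  have h2 := BaseJ.circT
  have h4 := BaseJ.lowT
  have h5 := BaseJ.goodT
  obtain ⟨n1, hwin⟩ := h3
  have hgr : ∃ m0 : ℕ, ∀ m : ℕ, m0 ≤ m →
      Real.exp (α * ((m : ℝ) + 1)) + 1 + 2 * Real.sqrt (Real.exp (α * ((m : ℝ) + 1)) + 1 / 2) ≤
        Real.exp (β * m) := by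
    refine ⟨⌈(2 + α) / (β - α)⌉₊, fun m hm => ?_⟩
    have hm' : (2 + α) / (β - α) ≤ m := Nat.ceil_le.1 hm
    rw [div_le_iff₀ (by linarith)] at hm'
    set E := Real.exp (α * ((m : ℝ) + 1)) with hE
    have hE1 : 1 ≤ E := Real.one_le_exp (by positivity)
    have hs : Real.sqrt (E + 1 / 2) ≤ E + 1 / 2 := by
      rw [Real.sqrt_le_left (by linarith)]
      nlinarith
    have hle : E + 1 + 2 * Real.sqrt (E + 1 / 2) ≤ 5 * E := by linarith
    have h6 : (5 : ℝ) ≤ Real.exp 2 := by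
      have h7 : (2.7 : ℝ) < Real.exp 1 := by
        have := Real.exp_one_gt_d9
        linarith
      have h8 : Real.exp 2 = Real.exp 1 * Real.exp 1 := by rw [← Real.exp_add]; norm_num
      rw [h8]; nlinarith
    calc E + 1 + 2 * Real.sqrt (E + 1 / 2) ≤ 5 * E := hle
      _ ≤ Real.exp 2 * E := by
          exact mul_le_mul_of_nonneg_right h6 (by linarith)
      _ = Real.exp (2 + α * ((m : ℝ) + 1)) := by rw [hE, ← Real.exp_add]
      _ ≤ Real.exp (β * m) := Real.exp_le_exp.2 (by linarith)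
  obtain ⟨m0, hm0⟩ := hgr
  set n2 := max n1 m0 with hn2
  set A : ℝ := Real.exp (α * (n2 : ℝ)) with hA
  have hA0 : 0 < A := Real.exp_pos _
  have key : ∀ k : ℕ, ∀ w : ℂ, w.im ≠ 0 → iteratedDeriv (n2 + k) FF w = 0 →
      ‖w‖ ≤ Real.exp (α * ((n2 + k : ℕ) : ℝ)) → |w.im| ≤ A ∧ |w.re| ≤ A * (k + 1) := by
    intro k
    induction k with
    | zero =>
      intro w _ _ hw
      simp only [add_zero] at hw
      rw [← hA] at hw
      refine ⟨(Complex.abs_im_le_norm w).trans hw, ?_⟩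
      simpa using (Complex.abs_re_le_norm w).trans hw
    | succ k ih =>
      intro w him hw0 hw
      have hcast : ((n2 + (k + 1) : ℕ) : ℝ) = ((n2 + k : ℕ) : ℝ) + 1 := by push_cast; ring
      rw [hcast] at hw
      obtain ⟨z, hzim, hz0, hzw⟩ := h2 FF h5 (n2 + k) w him hw0
      have hzPar : z ∈ Par := h1 FF h5 (n2 + k) z hz0
      have hzn := (parent_norm hzPar hzw hw).trans (hm0 (n2 + k) (by omega))
      have hzlt : ‖z‖ ≤ Real.exp (α * ((n2 + k : ℕ) : ℝ)) := by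
        by_contra hcon
        push Not at hcon
        exact hwin (n2 + k) (by omega) z hzPar hzim hcon.le hzn hz0
      obtain ⟨i1, i2⟩ := ih z hzim hz0 hzlt
      have j1 : |w.im| ≤ |z.im| := by
        have := Complex.abs_im_le_norm (w - (z.re : ℂ))
        simp only [Complex.sub_im, Complex.ofReal_im, sub_zero] at this
        exact this.trans hzw
      have j2 : |w.re - z.re| ≤ |z.im| := by
        have := Complex.abs_re_le_norm (w - (z.re : ℂ))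
        simp only [Complex.sub_re, Complex.ofReal_re] at this
        exact this.trans hzw
      refine ⟨j1.trans i1, ?_⟩
      have j3 : |w.re| ≤ |z.re| + |w.re - z.re| := by
        have := abs_add_le z.re (w.re - z.re)
        simpa using this
      push_cast
      linarith [mul_add A ((k : ℝ) + 1) 1]
  obtain ⟨N0, hN0⟩ := h4 (3 * A)
  refine ⟨max (max n2 N0) 1, fun n hn w him hw0 => ?_⟩
  by_contra hcon
  push Not at hcon
  have hn1 : 1 ≤ n := (le_max_right _ _).trans hn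
  have hnn2 : n2 ≤ n := ((le_max_left _ _).trans (le_max_left _ _)).trans hn
  have hnN0 : N0 ≤ n := ((le_max_right _ _).trans (le_max_left _ _)).trans hn
  have hwPar : w ∈ Par := h1 FF h5 n w hw0
  have hlow : ‖w‖ ≤ Real.exp (α * (n : ℝ)) := by
    by_contra hc
    push Not at hc
    exact hwin n (by omega) w hwPar him hc.le hcon hw0
  obtain ⟨k, rfl⟩ := Nat.exists_eq_add_of_le hnn2
  obtain ⟨i1, i2⟩ := key k w him hw0 hlow
  have h9 : ‖w‖ ≤ |w.re| + |w.im| := Complex.norm_le_abs_re_add_abs_im w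
  have h10 := hN0 (n2 + k) hnN0 w hw0
  have h11 : (1 : ℝ) ≤ ((n2 + k : ℕ) : ℝ) := by exact_mod_cast hn1
  have h12 : (k : ℝ) ≤ ((n2 + k : ℕ) : ℝ) := by push_cast; linarith [Nat.cast_nonneg (α := ℝ) n2]
  nlinarith

/-- For all large `n`, `J^{d,n}` is hyperbolic for all `d ≤ exp (c n)`. -/
def Hyp (c : ℝ) : Prop := ∃ N : ℕ, ∀ n : ℕ, N ≤ n → ∀ d : ℕ, (d : ℝ) ≤ Real.exp (c * n) →
  Hyperbolic (jensen d n)

lemma aeval_jensen (d n : ℕ) (z : ℂ) : aeval z (jensen d n) =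
    ∑ j ∈ Finset.range (d + 1), (d.choose j : ℂ) * iteratedDeriv (n + j) FF 0 * z ^ j := by
  unfold jensen
  rw [map_sum]
  refine Finset.sum_congr rfl fun j _ => ?_
  rw [Pool.Agent.H24R2.JP.b1.2.2.2 (n + j)]
  simp

theorem hypF (c β : ℝ) (hβ : 0 < β) (hc : c < β)
    (h : ∃ N1 : ℕ, ∀ n : ℕ, N1 ≤ n → ∀ w : ℂ, w.im ≠ 0 → iteratedDeriv n FF w = 0 →
      Real.exp (β * n) < ‖w‖) : Hyp c := by
  obtain ⟨N1, hN1⟩ := h
  obtain ⟨c', hc'⟩ : ∃ c' : ℝ, c' = max c 0 := ⟨_, rfl⟩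
  have hc0 : 0 ≤ c' := by rw [hc']; exact le_max_right _ _
  have hc1 : c ≤ c' := by rw [hc']; exact le_max_left _ _
  have hc2 : c' < β := by rw [hc']; exact max_lt hc hβ
  refine ⟨max N1 ⌈1 / (β - c')⌉₊, fun n hn d hdR z hz => ?_⟩
  rw [aeval_jensen] at hz
  have hn1 : 1 / (β - c') ≤ n := Nat.ceil_le.1 ((le_max_right _ _).trans hn)
  rw [div_le_iff₀ (by linarith)] at hn1
  have hn0 : (0 : ℝ) ≤ n := Nat.cast_nonneg n
  set R : ℝ := Real.exp (β * n) with hR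
  have hR0 : 0 < R := Real.exp_pos _
  have hd0 : (0 : ℝ) ≤ d := Nat.cast_nonneg d
  have hd1 : (d : ℝ) + 1 ≤ R := by
    have e1 : R = Real.exp ((β - c') * n) * Real.exp (c' * n) := by
      rw [hR, ← Real.exp_add]; congr 1; ring
    have e2 : 2 ≤ Real.exp ((β - c') * n) := by
      have := Real.add_one_le_exp ((β - c') * n)
      linarith
    have e3 : 1 ≤ Real.exp (c' * n) := Real.one_le_exp (by positivity)
    have e4 : Real.exp (c * n) ≤ Real.exp (c' * n) := Real.exp_le_exp.2 (by gcongr)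
    have e5 : 2 * Real.exp (c' * n) ≤ Real.exp ((β - c') * n) * Real.exp (c' * n) := by gcongr
    linarith
  refine BaseJ.jensenT FF BaseJ.goodT n d R hR0 ?_ ?_ z hz
  · nlinarith
  · intro w hw hw0
    by_contra him
    exact absurd (hN1 n ((le_max_left _ _).trans hn) w him hw0) (not_lt.2 hw)

open Pool.Agent.H986R2.K4 in
/-- The forward theorem. -/
theorem fwdJ (y c : ℝ) (hy0 : 0 ≤ y) (hy : y ≤ 1 / 2) (hZ : ZB y) (hc : c * y < 4) : Hyp c := by
  obtain ⟨r0, hr, hr1, hcr⟩ : ∃ r0 : ℝ, y < r0 ∧ r0 ≤ 1 ∧ c * r0 < 4 := by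
    rcases le_or_gt c 0 with hk | hk
    · exact ⟨1, by linarith, le_refl _, by linarith⟩
    · have hy2 : y < 4 / c := by
        rw [lt_div_iff₀ hk]
        linarith
      have hm : y < min 1 (4 / c) := lt_min (by linarith) hy2
      refine ⟨(y + min 1 (4 / c)) / 2, by linarith, ?_, ?_⟩
      · have := min_le_left (1 : ℝ) (4 / c)
        linarith
      · have h3 := min_le_right (1 : ℝ) (4 / c)
        have h4 : (y + min 1 (4 / c)) / 2 < 4 / c := by linarith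
        rw [lt_div_iff₀ hk] at h4
        linarith
  have hr0 : 0 < r0 := lt_of_le_of_lt hy0 hr
  have hw := winF (normQ hh (pl hh)) (aw lapQ) (nl (rt lapQ)) y r0 hy0 hy hZ hr hr1
  refine hypF c (4 / r0) (by positivity) (by rw [lt_div_iff₀ hr0]; exact hcr)
    (chainF (3 / r0) (4 / r0) (by positivity) ?_ (winG r0 hr0 hr1 hw))
  exact div_lt_div_of_pos_right (by norm_num) hr0

theorem eight (c : ℝ) (hc : c < 8) : Hyp c :=
  fwdJ (1 / 2) c (by norm_num) le_rfl Pool.Agent.H986R2.K4.a1 (by linarith)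

end Pool.Agent.H544Z.J8
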