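import Pool.Agent.H544Z.J8.Approx
import Pool.Agent.H986R2.K4.GR
import Pool.Agent.H986R2.K4.SAB
import Pool.Agent.H986R2.K4.RG
import Pool.Agent.H986R2.K4.LL
import Pool.Agent.H986R2.K4.A1

set_option autoImplicit false

/-!
# Control of the derivative of `XX` from a hyperbolic Jensen polynomial
-/

namespace Pool.Agent.H544Z.J8

open Complex Filter Topology MeasureTheory Set Polynomial
open Pool.Agent.H24R2.JP (XX HH Om FF Par jensen Hyperbolic)
open Pool.Agent.H986R2.K4 (ZB)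

/-- A hyperbolic Jensen polynomial of degree about `t ^ (2 + 8 b)`. -/
def PJ (b t : ℝ) (n : ℕ) : Prop := ∃ d : ℕ, t ^ 2 * Real.exp (8 * b * Real.log t) / 2 ≤ d ∧
  (d : ℝ) ≤ t ^ 2 * Real.exp (8 * b * Real.log t) ∧ Hyperbolic (jensen d n)

/-- Control of the `n`-th derivative to the right of the line under the condition `P`. -/
def GRP (P : ℝ → ℕ → Prop) (r0 r1 : ℝ) : Prop := ∀ η0 η : ℝ, 0 < η0 → η0 ≤ 1 / 4 → 0 < η →
  ∃ T0 : ℝ, 2 ≤ T0 ∧ ∀ (t : ℝ) (n : ℕ), T0 ≤ t → r0 * Om t ≤ n → (n : ℝ) ≤ r1 * Om t → P t n →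
  ∀ u : ℂ, η0 ≤ u.re → u.re ≤ 1 → |u.im| ≤ 1 →
    iteratedDeriv n XX (I * t + u) ≠ 0 ∧
    ‖logDeriv (iteratedDeriv n XX) (I * t + u) - (Om t : ℂ)‖ ≤ η * Om t ∧
    t ^ (-η) * (Om t ^ n * ‖HH (I * t + u)‖) ≤ ‖iteratedDeriv n XX (I * t + u)‖

lemma JT_diff (t : ℝ) (n d : ℕ) : Differentiable ℂ (JT t n d) := by
  unfold JT
  refine Differentiable.const_mul ?_ _
  have h1 : Differentiable ℂ (fun x : ℂ => aeval x (jensen d n)) := by
    simp_rw [aeval_jen]
    fun_prop
  exact h1.comp (((differentiable_id.const_mul _).const_add _).div_const _)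

open Pool.Agent.H986R2.K4 Pool.Agent.H986R2.K4.GRAux in
theorem grJ (y b r0 r1 : ℝ) (hy1 : y ≤ 1 / 2) (hZ : ZB y) (hb : 0 < b)
    (hb1 : b ≤ 1 / 8) (hr0 : 0 < r0) (hr01 : r0 ≤ r1) (hr1 : r1 ≤ y) (hr : y - r0 ≤ b / 2) :
    GRP (PJ b) r0 r1 := by
  intro η0 η hη0 hη0' hη
  obtain ⟨K, hK, hHH⟩ := hh
  obtain ⟨TH, hTH, hHH⟩ := hHH 15 (by norm_num)
  obtain ⟨KU, TU, hKU, hTU, hUB⟩ := ub r0 r1 hr0 hr01 (by linarith)
  obtain ⟨η', hη'⟩ : ∃ η' : ℝ, η' = min (η / 8) (b / 2) := ⟨_, rfl⟩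
  have hη'0 : 0 < η' := by rw [hη']; exact lt_min (by positivity) (by positivity)
  have hη'1 : η' ≤ η / 8 := by rw [hη']; exact min_le_left _ _
  have hη'2 : η' ≤ b / 2 := by rw [hη']; exact min_le_right _ _
  obtain ⟨ε, hε, hS⟩ := sab (η0 / 2) η' (KU + 15 * K + 1) (by positivity) (by linarith) hη'0
    (by positivity)
  obtain ⟨ε', hε'⟩ : ∃ ε' : ℝ, ε' = min (ε / 2) (b / 2) := ⟨_, rfl⟩
  have hε'0 : 0 < ε' := by rw [hε']; exact lt_min (by positivity) (by positivity)
  have hε'1 : ε' ≤ ε / 2 := by rw [hε']; exact min_le_left _ _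
  have hε'2 : ε' ≤ b / 2 := by rw [hε']; exact min_le_right _ _
  obtain ⟨TR, hTR, hRG⟩ := rg ll hh a1 r0 r1 ε' hr0 hr01 (by linarith) hε'0
  obtain ⟨TA, hTA, hA⟩ := approx y b r0 hy1 hZ hb hb1 hr0 (by linarith) hr
  obtain ⟨L0, hL0⟩ : ∃ L0 : ℝ, L0 = 1 + 4 * (K + 1) / η + 2 / ε + 2 / b * (4 / η0) := ⟨_, rfl⟩
  refine ⟨max (max (max TH TU) TA) (max TR (Real.exp L0)), ?_, ?_⟩
  · exact le_trans hTA (le_trans (le_max_right _ _) (le_max_left _ _))
  intro t n ht hn0 hn1 hP
  obtain ⟨d, hd1, hd2, hhyp⟩ := hP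
  have htH : TH ≤ t := (((le_max_left _ _).trans (le_max_left _ _)).trans (le_max_left _ _)).trans ht
  have htU : TU ≤ t := (((le_max_right _ _).trans (le_max_left _ _)).trans (le_max_left _ _)).trans ht
  have htA : TA ≤ t := ((le_max_right _ _).trans (le_max_left _ _)).trans ht
  have htR : TR ≤ t := le_trans (le_trans (le_max_left _ _) (le_max_right _ _)) ht
  have htE : Real.exp L0 ≤ t := le_trans (le_trans (le_max_right _ _) (le_max_right _ _)) ht
  have ht0 : 0 < t := lt_of_lt_of_le (Real.exp_pos _) htE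
  have hlog : L0 ≤ Real.log t := (Real.le_log_iff_exp_le ht0).mpr htE
  have hOm : Om t = Real.log t / 2 := rfl
  have hpow : ∀ a : ℝ, t ^ a = Real.exp (a * Real.log t) := by
    intro a; rw [Real.rpow_def_of_pos ht0, mul_comm]
  have hdpos : (0 : ℝ) < d := lt_of_lt_of_le (by positivity) hd1
  obtain ⟨L, hL⟩ : ∃ L : ℝ, L = Real.log t := ⟨_, rfl⟩
  rw [← hL] at hlog hOm hpow
  have q1 : 0 < 4 * (K + 1) / η := by positivity
  have q2 : 0 < 2 / ε := by positivity
  have q3 : 0 < 2 / b * (4 / η0) := by positivity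
  have hL1 : 1 ≤ L := by linarith
  have hLK : K + 1 ≤ η / 4 * L := by
    have : 4 * (K + 1) / η ≤ L := by linarith
    rw [div_le_iff₀ hη] at this
    linarith
  have hLε : 2 ≤ Real.exp (ε / 2 * L) := by
    have h1 : 2 / ε ≤ L := by linarith
    rw [div_le_iff₀ hε] at h1
    have := Real.add_one_le_exp (ε / 2 * L)
    linarith
  have hσ : Real.exp (-(b / 2 * L)) ≤ η0 / 4 := by
    have h1 : 2 / b * (4 / η0) ≤ L := by linarith
    have h2 : 4 / η0 ≤ b / 2 * L := by
      have h3 := mul_le_mul_of_nonneg_left h1 (by positivity : 0 ≤ b / 2)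
      have e : b / 2 * (2 / b * (4 / η0)) = 4 / η0 := by field_simp
      rwa [e] at h3
    have h3 := Real.add_one_le_exp (b / 2 * L)
    rw [Real.exp_neg, inv_le_comm₀ (Real.exp_pos _) (by positivity), inv_div]
    linarith
  have hσ2 : Real.exp (-(b / 2 * L)) ≤ 1 / 2 := by linarith
  have hOm0 : 0 < Om t := by rw [hOm]; linarith
  have hc : ((Om t : ℂ) ^ n) ≠ 0 := by
    apply pow_ne_zero
    exact_mod_cast hOm0.ne'
  have hcn : ‖((Om t : ℂ) ^ n)‖ = Om t ^ n := by
    rw [norm_pow, Complex.norm_real, Real.norm_of_nonneg hOm0.le]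
  have hcpos : 0 < Om t ^ n := pow_pos hOm0 n
  obtain ⟨F, hF⟩ : ∃ F : ℂ → ℂ, F = iteratedDeriv n XX := ⟨_, rfl⟩
  obtain ⟨G, hG⟩ : ∃ G : ℂ → ℂ, G = fun v => F (I * t + v) / ((Om t : ℂ) ^ n * HH (I * t + v)) :=
    ⟨_, rfl⟩
  obtain ⟨g, hg⟩ : ∃ g : ℂ → ℂ, g = fun v => JT t n d v / ((Om t : ℂ) ^ n * HH (I * t + v)) :=
    ⟨_, rfl⟩
  have hFd : Differentiable ℂ F := by rw [hF]; exact diff_iter n
  rw [← hF]
  have hJ0 : ∀ u : ℂ, 0 < u.re → JT t n d u ≠ 0 := by
    intro u hu h0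
    unfold JT at h0
    have htc : (t : ℂ) ≠ 0 := by exact_mod_cast ht0.ne'
    have h1 := (mul_eq_zero.1 h0).resolve_left
      (pow_ne_zero _ (mul_ne_zero (mul_ne_zero two_ne_zero Complex.I_ne_zero) htc))
    have h2 := hhyp _ h1
    rw [← Complex.ofReal_natCast, Complex.div_ofReal_im] at h2
    have h3 : (-(t : ℂ) ^ 2 + 2 * I * t * u).im = 2 * t * u.re := by
      rw [← Complex.ofReal_pow]
      simp only [Complex.add_im, Complex.neg_im, Complex.ofReal_im, Complex.mul_im, Complex.mul_re,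
        Complex.re_ofNat, Complex.im_ofNat, Complex.I_re, Complex.I_im, Complex.ofReal_re]
      ring
    rw [h3] at h2
    have h4 : 0 < 2 * t * u.re / d := by positivity
    linarith
  have hH0 : ∀ u : ℂ, |u.re| ≤ 10 → |u.im| ≤ 10 → DifferentiableAt ℂ HH (I * t + u) ∧
      HH (I * t + u) ≠ 0 ∧ ‖logDeriv HH (I * t + u) - (Om t : ℂ)‖ ≤ K ∧
      Real.exp (Om t * u.re - K * 15) * ‖HH (I * t)‖ ≤ ‖HH (I * t + u)‖ := by
    intro u hu hu2
    obtain ⟨a, b, c, d, _⟩ := hHH t u htH (norm_le hu hu2)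
    exact ⟨a, b, c, d⟩
  have hGn : ∀ u : ℂ, ‖G u‖ = ‖F (I * t + u)‖ / (Om t ^ n * ‖HH (I * t + u)‖) := by
    intro u
    rw [hG]; simp only
    rw [norm_div, norm_mul, hcn]
  have hdiff : ∀ u : ℂ, 0 ≤ u.re → u.re ≤ 10 → |u.im| ≤ 10 →
      DifferentiableAt ℂ g u ∧ DifferentiableAt ℂ G u ∧ ‖G u - g u‖ ≤ Real.exp (-(b * L)) := by
    intro u hu1 hu2 hu3
    have hur : |u.re| ≤ 10 := by rw [abs_of_nonneg hu1]; exact hu2
    obtain ⟨a1, a2, a3, a4⟩ := hH0 u hur hu3
    have hd : DifferentiableAt ℂ (fun v : ℂ => I * t + v) u := differentiableAt_id.const_add _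
    have b1 : DifferentiableAt ℂ (fun v : ℂ => F (I * t + v)) u :=
      DifferentiableAt.comp u hFd.differentiableAt hd
    have b2 : DifferentiableAt ℂ (fun v : ℂ => HH (I * t + v)) u :=
      DifferentiableAt.comp u a1 hd
    refine ⟨?_, ?_, ?_⟩
    · rw [hg]
      exact (JT_diff t n d u).div (b2.const_mul _) (mul_ne_zero hc a2)
    · rw [hG]
      exact b1.div (b2.const_mul _) (mul_ne_zero hc a2)
    · have h1 := hA t n d htA hn0 (hn1.trans (by gcongr)) hd1 hd2 u hu1 hu2 hu3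
      rw [← hL, ← hF] at h1
      rw [hG, hg]
      simp only
      have hp : 0 < ‖HH (I * t + u)‖ := norm_pos_iff.2 a2
      rw [← sub_div, norm_div, norm_mul, hcn, div_le_iff₀ (by positivity), norm_sub_rev]
      exact h1
  have hbL : Real.exp (-(b * L)) ≤ 1 := Real.exp_le_one_iff.2 (by simp; positivity)
  have htri : ∀ u : ℂ, ‖g u‖ ≤ ‖G u‖ + ‖G u - g u‖ ∧ ‖G u‖ ≤ ‖g u‖ + ‖G u - g u‖ := by
    intro u
    constructor
    · have := norm_sub_le (G u) (G u - g u)
      rwa [sub_sub_cancel] at this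
    · have := norm_add_le (g u) (G u - g u)
      rwa [add_sub_cancel] at this
  have hg0 : ∀ u : ℂ, 0 < u.re → u.re ≤ 10 → |u.im| ≤ 10 → g u ≠ 0 := by
    intro u hu1 hu2 hu3
    have hur : |u.re| ≤ 10 := by rw [abs_of_nonneg hu1.le]; exact hu2
    rw [hg]
    exact div_ne_zero (hJ0 u hu1) (mul_ne_zero hc (hH0 u hur hu3).2.1)
  have key := hS L g hL1 ?_ ?_
  · intro u hu1 hu2 hu3
    have hur : |u.re| ≤ 10 := by rw [abs_of_nonneg (by linarith)]; linarith
    have hui : |u.im| ≤ 10 := by linarith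
    obtain ⟨a1, a2, a3, a4⟩ := hH0 u hur hui
    obtain ⟨k1, k2, -⟩ := key u (by linarith) (by linarith) (by linarith)
    obtain ⟨m1, m2, m3⟩ := IntAux.transfer g G u (η0 / 2) (Real.exp (-(b / 2 * L))) (by positivity) hσ2
      (by
        intro w hw
        rw [Metric.mem_closedBall, dist_eq_norm] at hw
        have w1 := abs_le.1 ((Complex.abs_re_le_norm (w - u)).trans hw)
        have w2 := abs_le.1 ((Complex.abs_im_le_norm (w - u)).trans hw)
        rw [Complex.sub_re] at w1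
        rw [Complex.sub_im] at w2
        have w3 := abs_le.1 hu3
        have w4 : |w.im| ≤ 3 := by rw [abs_le]; constructor <;> linarith [w2.1, w2.2]
        obtain ⟨c1, c2, c3⟩ := hdiff w (by linarith [w1.1]) (by linarith [w1.2]) (by linarith)
        obtain ⟨-, c4, -⟩ := key w (by linarith [w1.1]) (by linarith [w1.2]) w4
        refine ⟨c1, c2, hg0 w (by linarith [w1.1]) (by linarith [w1.2]) (by linarith), c3.trans ?_⟩
        calc Real.exp (-(b * L)) ≤ Real.exp (-(b / 2 * L)) * Real.exp (-(η' * L)) := by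
              rw [← Real.exp_add]
              apply Real.exp_le_exp.2
              have : η' * L ≤ b / 2 * L := by gcongr
              linarith
          _ ≤ _ := by gcongr)
    have hFu : F (I * t + u) ≠ 0 := by
      intro h0
      apply m1
      rw [hG]
      simp only
      rw [h0, zero_div]
    refine ⟨hFu, ?_, ?_⟩
    · have e1 := logDeriv_quot (p := I * t) (u := u) hc hFd.differentiableAt hFu a1 a2
      have e2 : logDeriv F (I * t + u) - (Om t : ℂ) =
          (logDeriv G u - logDeriv g u) + logDeriv g u + (logDeriv HH (I * t + u) - (Om t : ℂ)) := by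
        rw [hG, e1]; ring
      rw [e2]
      have m4 : 2 * Real.exp (-(b / 2 * L)) / (η0 / 2) ≤ 1 := by
        rw [div_le_one (by positivity)]; linarith
      have m5 : η' * L ≤ η / 8 * L := by gcongr
      have m6 : 0 ≤ η * L := by positivity
      calc _ ≤ ‖logDeriv G u - logDeriv g u‖ + ‖logDeriv g u‖ +
            ‖logDeriv HH (I * t + u) - (Om t : ℂ)‖ := norm_add₃_le
        _ ≤ 1 + η' * L + K := add_le_add (add_le_add (m3.trans m4) k1) a3
        _ ≤ η * Om t := by rw [hOm]; linarith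
    · have hp : 0 < ‖HH (I * t + u)‖ := norm_pos_iff.2 a2
      have m4 : Real.exp (-η * L) ≤ ‖G u‖ := by
        refine le_trans ?_ m2
        have m5 : η' * L ≤ η / 8 * L := by gcongr
        have m6 : 2 ≤ Real.exp (η / 4 * L) := by
          have := Real.add_one_le_exp (η / 4 * L)
          linarith
        have m7 : Real.exp (-η * L) * Real.exp (η / 4 * L) ≤ Real.exp (-(η' * L)) := by
          rw [← Real.exp_add]
          apply Real.exp_le_exp.2
          have : 0 ≤ η * L := by positivity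
          linarith
        have m8 : Real.exp (-η * L) * 2 ≤ Real.exp (-η * L) * Real.exp (η / 4 * L) := by gcongr
        linarith
      rw [hGn, le_div_iff₀ (by positivity)] at m4
      rw [hpow]
      exact m4
  · intro u hu1 hu2 hu3
    have hur : |u.re| ≤ 10 := by rw [abs_of_nonneg (by linarith)]; linarith
    obtain ⟨a1, a2, a3, a4⟩ := hH0 u hur hu3
    obtain ⟨c1, c2, c3⟩ := hdiff u hu1.le hu2 hu3
    refine ⟨c1, hg0 u hu1 hu2 hu3, ?_⟩
    have hp : 0 < ‖HH (I * t + u)‖ := norm_pos_iff.2 a2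
    have hGb : ‖G u‖ ≤ Real.exp ((KU + 15 * K) * L) := by
      rw [hGn, div_le_iff₀ (by positivity)]
      have b1 := hUB t n htU hn0 hn1 u hur hu3
      rw [← hF] at b1
      refine le_trans b1 ?_
      have b2 : Real.exp (-(K * 15)) * ‖HH (I * t)‖ ≤ ‖HH (I * t + u)‖ := by
        refine le_trans ?_ a4
        apply mul_le_mul_of_nonneg_right _ (norm_nonneg _)
        apply Real.exp_le_exp.mpr
        have : 0 ≤ Om t * u.re := by positivity
        linarith
      have b3 : ‖HH (I * t)‖ ≤ Real.exp (K * 15) * ‖HH (I * t + u)‖ := by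
        have := mul_le_mul_of_nonneg_left b2 (Real.exp_pos (K * 15)).le
        rwa [← mul_assoc, ← Real.exp_add, add_neg_cancel, Real.exp_zero, one_mul] at this
      have b5 : Real.exp (K * 15) ≤ Real.exp (15 * K * L) := by
        apply Real.exp_le_exp.mpr
        have : K * 15 * 1 ≤ K * 15 * L := by gcongr
        linarith
      calc t ^ KU * (Om t ^ n * ‖HH (I * t)‖)
          ≤ t ^ KU * (Om t ^ n * (Real.exp (K * 15) * ‖HH (I * t + u)‖)) := by gcongr
        _ ≤ t ^ KU * (Om t ^ n * (Real.exp (15 * K * L) * ‖HH (I * t + u)‖)) := by gcongr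
        _ = Real.exp ((KU + 15 * K) * L) * (Om t ^ n * ‖HH (I * t + u)‖) := by
          rw [hpow, add_mul, Real.exp_add]; ring
    have b6 : 1 ≤ Real.exp ((KU + 15 * K) * L) := Real.one_le_exp (by positivity)
    have b7 : 2 ≤ Real.exp L := by have := Real.add_one_le_exp L; linarith
    calc ‖g u‖ ≤ Real.exp ((KU + 15 * K) * L) * 2 := by linarith [(htri u).1]
      _ ≤ Real.exp ((KU + 15 * K) * L) * Real.exp L := by gcongr
      _ = _ := by rw [← Real.exp_add]; congr 1; ring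
  · intro u hu1 hu2 hu3
    have hur : |u.re| ≤ 10 := by rw [abs_of_nonneg (by linarith)]; linarith
    obtain ⟨a1, a2, a3, a4⟩ := hH0 u hur hu3
    obtain ⟨c1, c2, c3⟩ := hdiff u (by linarith) hu2 hu3
    obtain ⟨d1, d2⟩ := hRG t n htR hn0 hn1 u hu1 hu2 hu3
    have hp : 0 < ‖HH (I * t + u)‖ := norm_pos_iff.2 a2
    rw [hpow, ← hF] at d1 d2
    have e1 : Real.exp (-ε' * L) ≤ ‖G u‖ := by
      rw [hGn, le_div_iff₀ (by positivity)]; exact d1
    have e2 : ‖G u‖ ≤ Real.exp (ε' * L) := by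
      rw [hGn, div_le_iff₀ (by positivity)]; exact d2
    have e3 : ε' * L ≤ ε / 2 * L := by gcongr
    have e4 : ε' * L ≤ b / 2 * L := by gcongr
    constructor
    · have f1 : Real.exp (-(b * L)) ≤ Real.exp (-(b / 2 * L)) * Real.exp (-ε' * L) := by
        rw [← Real.exp_add]
        apply Real.exp_le_exp.2
        linarith
      have f2 : Real.exp (-(b / 2 * L)) * Real.exp (-ε' * L) ≤ 1 / 2 * Real.exp (-ε' * L) := by gcongr
      have f3 : Real.exp (-(ε * L)) * Real.exp (ε / 2 * L) ≤ Real.exp (-ε' * L) := by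
        rw [← Real.exp_add]
        apply Real.exp_le_exp.2
        linarith
      have f4 : Real.exp (-(ε * L)) * 2 ≤ Real.exp (-(ε * L)) * Real.exp (ε / 2 * L) := by gcongr
      linarith [(htri u).2]
    · have f1 : 1 ≤ Real.exp (ε' * L) := Real.one_le_exp (by positivity)
      have f2 : Real.exp (ε' * L) * Real.exp (ε / 2 * L) ≤ Real.exp (ε * L) := by
        rw [← Real.exp_add]
        apply Real.exp_le_exp.2
        linarith
      have f3 : Real.exp (ε' * L) * 2 ≤ Real.exp (ε' * L) * Real.exp (ε / 2 * L) := by gcongr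
      linarith [(htri u).1]

end Pool.Agent.H544Z.J8
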