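import Pool.Agent.H986R2.K4.Norm
import Pool.Agent.H986R2.K4.AW
import Pool.Agent.H24R2.JP.B1

set_option autoImplicit false

/-!
# The local coordinate `x = -t^2 + 2 i t u` for the function `FF`
-/

namespace Pool.Agent.H544Z.J8

open Complex Filter Topology MeasureTheory Set
open Pool.Agent.H24R2.JP (XX HH Om FF Par)
open Pool.Agent.H986R2.K4 (QQ ZB S_NORM)
open Pool.Agent.H156R2.DZArc (growF)

/-- `FF` in the local coordinate at height `t`. -/
noncomputable def GT (t : ℝ) (u : ℂ) : ℂ := FF (-(t : ℂ) ^ 2 + 2 * I * t * u)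

lemma FF_diff : Differentiable ℂ FF := Pool.Agent.H24R2.JP.b1.1

lemma FF_sq (z : ℂ) : FF (z ^ 2) = XX z := Pool.Agent.H24R2.JP.b1.2.1 z

lemma XX_diff : Differentiable ℂ XX := Pool.Agent.H24R2.JP.B1h.XX_diff

theorem scale {f : ℂ → ℂ} (hf : Differentiable ℂ f) (c r : ℂ) (n : ℕ) (z : ℂ) :
    iteratedDeriv n (fun z => f (c + r * z)) z = r ^ n * iteratedDeriv n f (c + r * z) := by
  have h1 : ContDiff ℂ n (fun z => f (c + z)) :=
    (hf.comp (differentiable_id.const_add c)).contDiff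
  have h2 := congrFun (iteratedDeriv_comp_const_mul (n := n) h1 r) z
  have h3 := congrFun (iteratedDeriv_comp_const_add n f c) (r * z)
  rw [h2, h3]

theorem mono {κ R η η' : ℝ} {n : ℕ} {F : ℂ → ℂ} (h : η' ≤ η) (hN : QQ κ R n η' F) :
    QQ κ R n η F :=
  ⟨hN.diff, hN.symm, fun z h1 h2 => ⟨(hN.far z h1 h2).1,
    (hN.far z h1 h2).2.trans (mul_le_mul_of_nonneg_right h (Nat.cast_nonneg n))⟩, hN.near⟩

lemma GT_diff (t : ℝ) : Differentiable ℂ (GT t) := by
  unfold GT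
  exact FF_diff.comp ((differentiable_id.const_mul _).const_add _)

lemma GT_symm (t : ℝ) (u : ℂ) : GT t (-((starRingEnd ℂ) u)) = (starRingEnd ℂ) (GT t u) := by
  unfold GT
  rw [← Pool.Agent.H24R2.JP.b1.2.2.1]
  congr 1
  simp only [map_add, map_neg, map_pow, map_mul, Complex.conj_ofReal, Complex.conj_I,
    Pool.Agent.H24R2.JP.B1h.c2]
  ring

lemma GT_iter (t : ℝ) (n : ℕ) (u : ℂ) :
    iteratedDeriv n (GT t) u =
      (2 * I * t) ^ n * iteratedDeriv n FF (-(t : ℂ) ^ 2 + 2 * I * t * u) :=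
  scale FF_diff (-(t : ℂ) ^ 2) (2 * I * t) n u

/-- the square root near `i t + u` -/
lemma root (t : ℝ) (u : ℂ) (ht : 0 < t) (hu : ‖u‖ ≤ t / 2) :
    ∃ z : ℂ, z ^ 2 = -(t : ℂ) ^ 2 + 2 * I * t * u ∧ ‖z - (I * t + u)‖ ≤ 2 * ‖u‖ ^ 2 / t := by
  obtain ⟨z0, hz0⟩ := IsAlgClosed.exists_pow_nat_eq (-(t : ℂ) ^ 2 + 2 * I * t * u) (by norm_num : 0 < 2)
  obtain ⟨z, hz, hzi⟩ : ∃ z : ℂ, z ^ 2 = -(t : ℂ) ^ 2 + 2 * I * t * u ∧ 0 ≤ z.im := by
    rcases le_total 0 z0.im with h | h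
    · exact ⟨z0, hz0, h⟩
    · exact ⟨-z0, by rw [neg_sq, hz0], by simpa using h⟩
  refine ⟨z, hz, ?_⟩
  have e : (z - (I * t + u)) * (z + (I * t + u)) = -u ^ 2 := by
    have : (z - (I * t + u)) * (z + (I * t + u)) = z ^ 2 - (I * t + u) ^ 2 := by ring
    rw [this, hz]
    have hI : I ^ 2 = -1 := Complex.I_sq
    linear_combination (-(t : ℂ) ^ 2) * hI
  have h1 : t / 2 ≤ ‖z + (I * t + u)‖ := by
    have h2 := Complex.im_le_norm (z + (I * t + u))
    have h3 : (z + (I * t + u)).im = z.im + (t + u.im) := by simp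
    have h4 := (abs_le.1 ((Complex.abs_im_le_norm u).trans hu)).1
    linarith
  have h2 : ‖z - (I * t + u)‖ * ‖z + (I * t + u)‖ = ‖u‖ ^ 2 := by
    rw [← norm_mul, e, norm_neg, norm_pow]
  rw [le_div_iff₀ ht]
  have h3 : ‖z - (I * t + u)‖ * (t / 2) ≤ ‖u‖ ^ 2 := by
    rw [← h2]
    exact mul_le_mul_of_nonneg_left h1 (norm_nonneg _)
  linarith

lemma GT_eq {t : ℝ} {u z : ℂ} (hz : z ^ 2 = -(t : ℂ) ^ 2 + 2 * I * t * u) : GT t u = XX z := by
  unfold GT
  rw [← hz, FF_sq]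

lemma logDeriv_GT {t : ℝ} {u z : ℂ} (hz : z ^ 2 = -(t : ℂ) ^ 2 + 2 * I * t * u) (hz0 : z ≠ 0) :
    logDeriv (GT t) u = (I * t / z) * logDeriv XX z := by
  have h1 : HasDerivAt (GT t) (deriv FF (-(t : ℂ) ^ 2 + 2 * I * t * u) * (2 * I * t)) u := by
    have hlin : HasDerivAt (fun u : ℂ => -(t : ℂ) ^ 2 + 2 * I * t * u) (2 * I * t) u := by
      have := ((hasDerivAt_id u).const_mul (2 * I * (t : ℂ))).const_add (-(t : ℂ) ^ 2)
      rw [mul_one] at this
      exact this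
    exact HasDerivAt.comp (h₂ := FF) u (FF_diff _).hasDerivAt hlin
  have h2 : HasDerivAt XX (deriv FF (z ^ 2) * (2 * z)) z := by
    have hsq : HasDerivAt (fun z : ℂ => z ^ 2) (2 * z) z := by
      simpa using hasDerivAt_pow 2 z
    have h3 : HasDerivAt (FF ∘ fun z : ℂ => z ^ 2) (deriv FF (z ^ 2) * (2 * z)) z :=
      HasDerivAt.comp (h₂ := FF) z (FF_diff _).hasDerivAt hsq
    have e : (FF ∘ fun z : ℂ => z ^ 2) = XX := funext FF_sq
    rwa [e] at h3
  rw [logDeriv_apply, logDeriv_apply, h1.deriv, h2.deriv, GT_eq hz, ← hz]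
  field_simp

/-- The normalised local situation is stable under a small change of the variable. -/
lemma pert (κ R η : ℝ) (hκ : 0 < κ) (hκ1 : κ ≤ 1 / 2) (hR : 3 ≤ R) (hη : 0 < η) :
    ∃ η' ε : ℝ, 0 < η' ∧ 0 < ε ∧ ∀ (n : ℕ) (F G : ℂ → ℂ), QQ κ (R + 1) n η' F → Differentiable ℂ G →
      (∀ z : ℂ, G (-((starRingEnd ℂ) z)) = (starRingEnd ℂ) (G z)) →
      (∀ z : ℂ, ‖z‖ ≤ R → ∃ w l : ℂ, ‖w - z‖ ≤ ε ∧ ‖l - 1‖ ≤ ε ∧ G z = F w ∧
        logDeriv G z = l * logDeriv F w) → QQ (κ / 2) R n η G := by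
  obtain ⟨η', hη'⟩ : ∃ η' : ℝ, η' = min (η / 4) (min 1 (κ / (20 * (R + 2)))) := ⟨_, rfl⟩
  obtain ⟨ε, hε⟩ : ∃ ε : ℝ, ε = min (η / 2) (κ / 40) := ⟨_, rfl⟩
  have hη'0 : 0 < η' := by rw [hη']; exact lt_min (by positivity) (lt_min one_pos (by positivity))
  have hη'1 : η' ≤ η / 4 := by rw [hη']; exact min_le_left _ _
  have hη'2 : η' ≤ 1 := by rw [hη']; exact (min_le_right _ _).trans (min_le_left _ _)
  have hη'3 : η' * (R + 2) ≤ κ / 20 := by
    have h1 : η' ≤ κ / (20 * (R + 2)) := by rw [hη']; exact (min_le_right _ _).trans (min_le_right _ _)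
    have h2 : (0 : ℝ) < R + 2 := by linarith
    calc η' * (R + 2) ≤ κ / (20 * (R + 2)) * (R + 2) := mul_le_mul_of_nonneg_right h1 h2.le
      _ = κ / 20 := by field_simp
  have hε0 : 0 < ε := by rw [hε]; exact lt_min (by positivity) (by positivity)
  have hε1 : ε ≤ η / 2 := by rw [hε]; exact min_le_left _ _
  have hε2 : ε ≤ κ / 40 := by rw [hε]; exact min_le_right _ _
  refine ⟨η', ε, hη'0, hε0, ?_⟩
  intro n F G hQ hGd hGs hG
  have hn0 : (0 : ℝ) ≤ n := Nat.cast_nonneg n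
  have hS : ∀ w ∈ ({w : ℂ | 1 - κ ≤ w.re} ∩ Metric.closedBall 0 (R + 1)),
      DifferentiableAt ℂ F w ∧ F w ≠ 0 ∧ ‖logDeriv F w - ((n : ℝ) : ℂ)‖ ≤ η' * n := by
    intro w hw
    have hw2 : ‖w‖ ≤ R + 1 := by simpa using hw.2
    exact ⟨hQ.diff w, hQ.far w hw.1 hw2⟩
  have hconv := Pool.Agent.H986R2.K4.AWAux.convex_far κ (R + 1)
  have hre : ∀ {w z : ℂ}, ‖w - z‖ ≤ ε → |w.re - z.re| ≤ ε := by
    intro w z h
    have := (Complex.abs_re_le_norm (w - z)).trans h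
    rwa [Complex.sub_re] at this
  have hnm : ∀ {w z : ℂ}, ‖w - z‖ ≤ ε → ‖z‖ ≤ R → ‖w‖ ≤ R + 1 := by
    intro w z h hz
    have := norm_add_le (w - z) z
    rw [sub_add_cancel] at this
    linarith
  have hone : (1 : ℂ) ∈ ({w : ℂ | 1 - κ ≤ w.re} ∩ Metric.closedBall 0 (R + 1)) := by
    refine ⟨?_, ?_⟩
    · show 1 - κ ≤ (1 : ℂ).re
      rw [Complex.one_re]; linarith
    · rw [Metric.mem_closedBall, dist_zero_right, norm_one]; linarith
  refine ⟨hGd, hGs, ?_, ?_⟩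
  · intro z hz1 hz2
    obtain ⟨w, l, h1, h2, h3, h4⟩ := hG z hz2
    have h5 := (abs_le.1 (hre h1)).1
    obtain ⟨a1, a2⟩ := hQ.far w (by linarith) (hnm h1 hz2)
    refine ⟨by rw [h3]; exact a1, ?_⟩
    rw [h4]
    have e : l * logDeriv F w - n = l * (logDeriv F w - n) + (l - 1) * n := by ring
    rw [e]
    have hl : ‖l‖ ≤ 2 := by
      have := norm_add_le (l - 1) 1
      rw [sub_add_cancel, norm_one] at this
      linarith
    calc ‖l * (logDeriv F w - n) + (l - 1) * n‖ ≤ ‖l‖ * ‖logDeriv F w - n‖ + ‖l - 1‖ * n := by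
          refine (norm_add_le _ _).trans ?_
          rw [norm_mul, norm_mul, Complex.norm_natCast]
      _ ≤ 2 * (η' * n) + ε * n := by gcongr
      _ ≤ η * n := by nlinarith
  · -- lower bound at 1
    have hlow : ‖F 1‖ ≤ ‖G 1‖ * Real.exp (2 * ε * n) := by
      obtain ⟨w, l, h1, h2, h3, h4⟩ := hG 1 (by rw [norm_one]; linarith)
      have h5 := abs_le.1 (hre h1)
      rw [Complex.one_re] at h5
      have hw : w ∈ ({w : ℂ | 1 - κ ≤ w.re} ∩ Metric.closedBall 0 (R + 1)) := by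
        refine ⟨?_, ?_⟩
        · show 1 - κ ≤ w.re
          linarith [h5.1]
        · rw [Metric.mem_closedBall, dist_zero_right]
          exact hnm h1 (by rw [norm_one]; linarith)
      have h6 := growF hconv hS hw hone
      rw [h3]
      refine h6.trans (mul_le_mul_of_nonneg_left (Real.exp_le_exp.2 ?_) (norm_nonneg _))
      rw [Complex.one_re, norm_sub_rev]
      have h7 : (n : ℝ) * (1 - w.re) ≤ n * ε := mul_le_mul_of_nonneg_left (by linarith [h5.1]) hn0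
      have h8 : η' * n * ‖w - 1‖ ≤ 1 * n * ε := by gcongr
      linarith
    have hup0 : ∀ z : ℂ, 0 ≤ z.re → z.re ≤ 1 - κ / 2 → ‖z‖ ≤ R →
        ‖G z‖ ≤ ‖F 1‖ * Real.exp (-(17 / 40 * κ * n)) := by
      intro z hz0 hz1 hz2
      obtain ⟨w, l, h1, h2, h3, h4⟩ := hG z hz2
      have h5 := abs_le.1 (hre h1)
      rw [h3]
      rcases le_total w.re (1 - κ) with hw | hw
      · have h6 := hQ.near w (by rw [abs_le]; constructor <;> linarith [h5.1]) (hnm h1 hz2)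
        refine h6.trans (mul_le_mul_of_nonneg_left (Real.exp_le_exp.2 ?_) (norm_nonneg _))
        have : 0 ≤ κ * n := by positivity
        linarith
      · have hwS : w ∈ ({w : ℂ | 1 - κ ≤ w.re} ∩ Metric.closedBall 0 (R + 1)) :=
          ⟨hw, by rw [Metric.mem_closedBall, dist_zero_right]; exact hnm h1 hz2⟩
        have h6 := growF hconv hS hone hwS
        refine h6.trans (mul_le_mul_of_nonneg_left (Real.exp_le_exp.2 ?_) (norm_nonneg _))
        rw [Complex.one_re]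
        have h7 : (n : ℝ) * (w.re - 1) ≤ n * (ε - κ / 2) :=
          mul_le_mul_of_nonneg_left (by linarith [h5.2]) hn0
        have h8 : ‖w - 1‖ ≤ R + 2 := by
          have := norm_sub_le w 1
          rw [norm_one] at this
          linarith [hnm h1 hz2]
        have h9 : η' * n * ‖w - 1‖ ≤ κ / 20 * n := by
          calc η' * n * ‖w - 1‖ ≤ η' * n * (R + 2) := by gcongr
            _ = η' * (R + 2) * n := by ring
            _ ≤ κ / 20 * n := by gcongr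
        have h10 : (n : ℝ) * ε ≤ n * (κ / 40) := by gcongr
        nlinarith
    intro z hz1 hz2
    have hup : ‖G z‖ ≤ ‖F 1‖ * Real.exp (-(17 / 40 * κ * n)) := by
      rw [abs_le] at hz1
      rcases le_total 0 z.re with h | h
      · exact hup0 z h hz1.2 hz2
      · have h3 := hup0 (-((starRingEnd ℂ) z)) (by simpa using h) (by
          rw [Complex.neg_re, Complex.conj_re]; linarith [hz1.1]) (by
          rw [norm_neg, RCLike.norm_conj]; exact hz2)
        rwa [hGs, RCLike.norm_conj] at h3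
    refine hup.trans ?_
    calc ‖F 1‖ * Real.exp (-(17 / 40 * κ * n))
        ≤ ‖G 1‖ * Real.exp (2 * ε * n) * Real.exp (-(17 / 40 * κ * n)) := by gcongr
      _ = ‖G 1‖ * Real.exp (2 * ε * n + -(17 / 40 * κ * n)) := by rw [Real.exp_add]; ring
      _ ≤ ‖G 1‖ * Real.exp (-(κ / 2 / 2 * n)) := by
          refine mul_le_mul_of_nonneg_left (Real.exp_le_exp.2 ?_) (norm_nonneg _)
          have h10 : (n : ℝ) * ε ≤ n * (κ / 40) := by gcongr
          have : 0 ≤ κ * n := by positivity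
          nlinarith

/-- The normalised local situation for `FF` in the local coordinate. -/
theorem normF (h1 : S_NORM) (y r0 : ℝ) (hy0 : 0 ≤ y) (hy1 : y ≤ 1 / 2) (hZ : ZB y) (hyr : y < r0)
    (hr1 : r0 ≤ 1) :
    ∃ κ : ℝ, 0 < κ ∧ κ ≤ 1 / 2 ∧ ∀ R η : ℝ, 3 ≤ R → 0 < η → ∃ T0 : ℝ, 2 ≤ T0 ∧
      ∀ (t : ℝ) (n : ℕ), T0 ≤ t → r0 * Om t ≤ n → (n : ℝ) ≤ 2 * r0 * Om t →
      QQ κ R n η (fun z => GT t (((n / Om t : ℝ) : ℂ) * z)) := by
  have hr0 : 0 < r0 := lt_of_le_of_lt hy0 hyr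
  obtain ⟨κ, hκ0, hκ1, hN⟩ := h1 y r0 hy0 hy1 hZ hyr hr1
  refine ⟨κ / 2, by positivity, by linarith, ?_⟩
  intro R η hR hη
  obtain ⟨η', ε, hη', hε, hP⟩ := pert κ R η hκ0 hκ1 hR hη
  obtain ⟨T1, hT1, hQ⟩ := hN (R + 1) η' (by linarith) hη'
  have hR0 : 0 < R := by linarith
  refine ⟨max T1 (max (16 * R ^ 2) (max (4 * R ^ 2 / ε) (8 * R / ε))),
    hT1.trans (le_max_left _ _), ?_⟩
  intro t n ht hn1 hn2
  have ht1 : T1 ≤ t := (le_max_left _ _).trans ht
  have ht2 : 16 * R ^ 2 ≤ t := ((le_max_left _ _).trans (le_max_right _ _)).trans ht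
  have ht3 : 4 * R ^ 2 / ε ≤ t :=
    (((le_max_left _ _).trans (le_max_right _ _)).trans (le_max_right _ _)).trans ht
  have ht4 : 8 * R / ε ≤ t :=
    (((le_max_right _ _).trans (le_max_right _ _)).trans (le_max_right _ _)).trans ht
  have ht0 : 0 < t := by linarith
  have hlog0 : 0 < Real.log t := Real.log_pos (by linarith)
  have hOm : 0 < Om t := by unfold Om; positivity
  obtain ⟨r, hr⟩ : ∃ r : ℝ, r = n / Om t := ⟨_, rfl⟩
  have hrr0 : r0 ≤ r := by rw [hr, le_div_iff₀ hOm]; exact hn1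
  have hrr1 : r ≤ 2 := by
    rw [hr, div_le_iff₀ hOm]
    have : 2 * r0 * Om t ≤ 2 * Om t := by nlinarith
    linarith
  have hrp : 0 < r := by linarith
  have hrc : (r : ℂ) ≠ 0 := by exact_mod_cast hrp.ne'
  have hQ' := hQ t n ht1 hn1 hn2
  rw [← hr] at hQ' ⊢
  refine hP n _ _ hQ' ((GT_diff t).comp (differentiable_id.const_mul _)) ?_ ?_
  · intro z
    have e : (r : ℂ) * (-((starRingEnd ℂ) z)) = -((starRingEnd ℂ) ((r : ℂ) * z)) := by
      rw [map_mul, Complex.conj_ofReal]; ring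
    show GT t ((r : ℂ) * (-((starRingEnd ℂ) z))) = (starRingEnd ℂ) (GT t ((r : ℂ) * z))
    rw [e, GT_symm]
  · intro z hz
    have hu : ‖(r : ℂ) * z‖ = r * ‖z‖ := by
      rw [norm_mul, Complex.norm_real, Real.norm_eq_abs, abs_of_pos hrp]
    have hu2 : ‖(r : ℂ) * z‖ ≤ 2 * R := by
      rw [hu]; exact mul_le_mul hrr1 hz (norm_nonneg _) (by norm_num)
    obtain ⟨ζ, hζ1, hζ2⟩ := root t ((r : ℂ) * z) ht0 (by nlinarith)
    have hδ : ‖ζ - (I * t + (r : ℂ) * z)‖ ≤ r * (4 * R ^ 2 / t) := by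
      refine hζ2.trans ?_
      rw [hu, div_le_iff₀ ht0]
      have e : r * (4 * R ^ 2 / t) * t = r * (4 * R ^ 2) := by field_simp
      rw [e]
      have h1 : ‖z‖ ^ 2 ≤ R ^ 2 := pow_le_pow_left₀ (norm_nonneg _) hz 2
      have h2 : r * ‖z‖ ^ 2 ≤ 2 * R ^ 2 := mul_le_mul hrr1 h1 (by positivity) (by norm_num)
      nlinarith
    have hδ1 : 4 * R ^ 2 / t ≤ ε := by
      rw [div_le_iff₀ ht0]
      rw [div_le_iff₀ hε] at ht3
      linarith
    have hδ2 : 4 * R ^ 2 / t ≤ 1 / 4 := by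
      rw [div_le_iff₀ ht0]
      linarith
    have hd : ‖I * t - ζ‖ ≤ 2 * R + 1 := by
      have e : I * t - ζ = -((ζ - (I * t + (r : ℂ) * z)) + (r : ℂ) * z) := by ring
      rw [e, norm_neg]
      refine (norm_add_le _ _).trans ?_
      have : r * (4 * R ^ 2 / t) ≤ 2 * (1 / 4) := mul_le_mul hrr1 hδ2 (by positivity) (by norm_num)
      linarith
    have hζn : t / 2 ≤ ‖ζ‖ := by
      have h1 := norm_sub_norm_le (I * (t : ℂ)) ζ
      rw [norm_mul, Complex.norm_I, one_mul, Complex.norm_real, Real.norm_eq_abs, abs_of_pos ht0] at h1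
      nlinarith
    have hζ0 : ζ ≠ 0 := by
      intro h
      rw [h, norm_zero] at hζn
      linarith
    have hw : I * t + (r : ℂ) * ((ζ - I * t) / r) = ζ := by field_simp; ring
    refine ⟨(ζ - I * t) / r, I * t / ζ, ?_, ?_, ?_, ?_⟩
    · have e : (ζ - I * t) / r - z = (ζ - (I * t + (r : ℂ) * z)) / r := by field_simp; ring
      rw [e, norm_div, Complex.norm_real, Real.norm_eq_abs, abs_of_pos hrp, div_le_iff₀ hrp]
      refine hδ.trans ?_
      rw [mul_comm]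
      exact mul_le_mul_of_nonneg_right hδ1 hrp.le
    · have e : I * t / ζ - 1 = (I * t - ζ) / ζ := by field_simp
      rw [e, norm_div, div_le_iff₀ (by linarith)]
      rw [div_le_iff₀ hε] at ht4
      nlinarith
    · show GT t ((r : ℂ) * z) = XX (I * t + (r : ℂ) * ((ζ - I * t) / r))
      rw [hw]
      exact GT_eq hζ1
    · rw [Pool.Agent.H986R2.K4.NormAux.logDeriv_scale, hw]
      have hlin : HasDerivAt (fun z : ℂ => (r : ℂ) * z) (r : ℂ) z := by
        have := (hasDerivAt_id z).const_mul (r : ℂ)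
        rw [mul_one] at this
        exact this
      have h0 : HasDerivAt (fun z : ℂ => GT t ((r : ℂ) * z)) (deriv (GT t) ((r : ℂ) * z) * r) z :=
        HasDerivAt.comp (h₂ := GT t) z (GT_diff t _).hasDerivAt hlin
      have h1 := logDeriv_GT hζ1 hζ0
      rw [logDeriv_apply] at h1
      rw [logDeriv_apply, h0.deriv]
      calc deriv (GT t) ((r : ℂ) * z) * r / GT t ((r : ℂ) * z)
          = r * (deriv (GT t) ((r : ℂ) * z) / GT t ((r : ℂ) * z)) := by ring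
        _ = _ := by rw [h1]; ring

end Pool.Agent.H544Z.J8
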