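import Pool.Agent.H544Z.J8.ConvP
import Pool.Agent.H544Z.J8.Fwd
import Pool.Agent.H986R2.K4.LR
import Pool.Agent.H986R2.K4.Tay

set_option autoImplicit false

/-!
# The converse theorem for Jensen polynomials
-/

namespace Pool.Agent.H544Z.J8

open Complex Filter Topology MeasureTheory Set
open Pool.Agent.H24R2.JP (XX HH Om jensen Hyperbolic)
open Pool.Agent.H986R2.K4

theorem noHyp (y c : ℝ) (hy0 : 0 < y) (hy1 : y ≤ 1 / 2) (hZ : ZB y) (hS : Slope y) (hA : Acc y)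
    (hc : 4 < c * y) : ¬ Hyp c := by
  rintro ⟨N, hN⟩
  obtain ⟨c0, hc0⟩ : ∃ c0 : ℝ, c0 = min c (9 / (2 * y)) := ⟨_, rfl⟩
  have e9 : 9 / (2 * y) * y = 9 / 2 := by field_simp
  have hc1 : c0 ≤ c := by rw [hc0]; exact min_le_left _ _
  have hc2 : c0 * y ≤ 9 / 2 := by
    rw [← e9]
    exact mul_le_mul_of_nonneg_right (by rw [hc0]; exact min_le_right _ _) hy0.le
  have hc3 : 4 < c0 * y := by
    rw [hc0]
    rcases le_total c (9 / (2 * y)) with h | h
    · rwa [min_eq_left h]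
    · rw [min_eq_right h, e9]; norm_num
  have hc4 : 0 < c0 := by
    by_contra h
    push Not at h
    have := mul_nonpos_of_nonpos_of_nonneg h hy0.le
    linarith
  obtain ⟨γ, hγ⟩ : ∃ γ : ℝ, γ = c0 * y / 2 - 2 := ⟨_, rfl⟩
  have hγ0 : 0 < γ := by rw [hγ]; linarith
  have hγ1 : γ ≤ 1 / 4 := by rw [hγ]; linarith
  obtain ⟨r', hr'⟩ : ∃ r' : ℝ, r' = y - γ * y / 32 := ⟨_, rfl⟩
  have hγy : 0 < γ * y := by positivity
  have hγy1 : γ * y ≤ 1 / 4 * y := by gcongr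
  have hγy2 : γ * y ≤ γ * (1 / 2) := by gcongr
  have hr1 : y / 5 ≤ r' := by rw [hr']; linarith
  have hr2 : r' < y := by rw [hr']; linarith
  have hr0 : 0 < r' := by linarith
  have hexp : 2 + 8 * (γ / 16) ≤ c0 * r' / 2 := by
    have h1 : c0 * y * γ ≤ 9 / 2 * γ := by gcongr
    have h2 : c0 * r' / 2 = c0 * y / 2 - c0 * y * γ / 64 := by rw [hr']; ring
    rw [h2]
    linarith
  refine convP (pl hh) lr hh tay (PJ (γ / 16)) y r' hy0 hy1 hr1 hr2
    (grJ y (γ / 16) r' _ hy1 hZ (by positivity) (by linarith) hr0 (by linarith) (by linarith)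
      (by rw [hr']; linarith)) hS hA ⟨max 2 (Real.exp (2 * N / r')), ?_⟩
  intro T hT
  have hT2 : 2 ≤ T := (le_max_left _ _).trans hT
  have hT0 : 0 < T := by linarith
  have hlog : 2 * N / r' ≤ Real.log T :=
    (Real.le_log_iff_exp_le hT0).2 ((le_max_right _ _).trans hT)
  have hL0 : 0 < Real.log T := Real.log_pos (by linarith)
  have hn1 : r' * Om T ≤ ⌈r' * Om T⌉₊ := Nat.le_ceil _
  have hOm : Om T = Real.log T / 2 := rfl
  have hNn : N ≤ ⌈r' * Om T⌉₊ := by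
    have : (N : ℝ) ≤ ⌈r' * Om T⌉₊ := by
      refine le_trans ?_ hn1
      rw [div_le_iff₀ hr0] at hlog
      rw [hOm]
      linarith
    exact_mod_cast this
  obtain ⟨X, hX⟩ : ∃ X : ℝ, X = T ^ 2 * Real.exp (8 * (γ / 16) * Real.log T) := ⟨_, rfl⟩
  have hX2 : 2 ≤ X := by
    have h1 : 1 ≤ Real.exp (8 * (γ / 16) * Real.log T) := Real.one_le_exp (by positivity)
    have h2 : T ^ 2 * 1 ≤ T ^ 2 * Real.exp (8 * (γ / 16) * Real.log T) := by gcongr
    rw [hX]
    nlinarith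
  have hfl : (⌊X⌋₊ : ℝ) ≤ X := Nat.floor_le (by linarith)
  refine ⟨⌊X⌋₊, ?_, ?_, hN _ hNn _ (hfl.trans ?_)⟩
  · rw [← hX]
    have := Nat.lt_floor_add_one X
    linarith
  · rw [← hX]
    exact hfl
  · have e : T ^ 2 = Real.exp (2 * Real.log T) := by
      rw [two_mul, Real.exp_add, Real.exp_log hT0, pow_two]
    rw [hX, e, ← Real.exp_add]
    apply Real.exp_le_exp.2
    have h1 : (2 + 8 * (γ / 16)) * Real.log T ≤ c0 * r' / 2 * Real.log T := by gcongr
    have h2 : c0 * (r' * Om T) ≤ c * ⌈r' * Om T⌉₊ :=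
      mul_le_mul hc1 hn1 (by rw [hOm]; positivity) (by linarith)
    have h3 : c0 * (r' * Om T) = c0 * r' / 2 * Real.log T := by rw [hOm]; ring
    linarith

end Pool.Agent.H544Z.J8
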